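import Pool.Agent.Y407.NW.Push
import Pool.Agent.Y407.NW.Cyl

/-! Project NX: image of Lebesgue measure on a ball under a surjective linear map (general form; the first theorem is
adapted from `Pool.Agent.Y407.NW.Push`), and the sets of momenta for which one relative velocity is small, or two
relative velocities are almost parallel to the relative positions. -/

set_option autoImplicit false

open MeasureTheory

namespace Pool.Agent.Q130.NX

open Pool.Agent.Y516.NW

/-- Image of Lebesgue measure on a ball under a surjective linear map. -/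
theorem pushF {F : Type*} [NormedAddCommGroup F] [NormedSpace ℝ F] [FiniteDimensional ℝ F]
    [MeasurableSpace F] [BorelSpace F] [SecondCountableTopology F] (μ : Measure F) [μ.IsAddHaarMeasure]
    (n : ℕ) (V : (Fin n → E3) →ₗ[ℝ] F) (hV : Function.Surjective V) (R : ℝ) :
    ∃ C : ℝ, 0 ≤ C ∧ ∀ A : Set F,
      volume {P : Fin n → E3 | ‖P‖ ≤ R ∧ V P ∈ A} ≤ ENNReal.ofReal C * μ A := by
  obtain ⟨g0, hg0⟩ := LinearMap.exists_rightInverse_of_surjective V (LinearMap.range_eq_top.2 hV)
  obtain ⟨g, hg⟩ : ∃ g : F →L[ℝ] (Fin n → E3), ∀ y, V (g y) = y :=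
    ⟨LinearMap.toContinuousLinearMap g0, fun y => by
      have := LinearMap.congr_fun hg0 y
      simpa using this⟩
  have hVc : Continuous V := LinearMap.continuous_of_finiteDimensional V
  set B : Set F := Metric.closedBall 0 1 with hB
  have hB0 : μ B ≠ 0 := (Metric.measure_closedBall_pos μ 0 one_pos).ne'
  have hBt : μ B ≠ ⊤ := (isCompact_closedBall 0 1).measure_ne_top
  set R' : ℝ := R + ‖g‖ with hR'
  have hRt : volume (Metric.closedBall (0 : Fin n → E3) R') ≠ ⊤ :=
    (isCompact_closedBall 0 R').measure_ne_top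
  refine ⟨(volume (Metric.closedBall (0 : Fin n → E3) R') / μ B).toReal,
    ENNReal.toReal_nonneg, fun A0 => ?_⟩
  rw [ENNReal.ofReal_toReal (ENNReal.div_ne_top hRt hB0)]
  have key : ∀ A : Set F, MeasurableSet A → μ B * volume {P : Fin n → E3 | ‖P‖ ≤ R ∧ V P ∈ A} ≤
      volume (Metric.closedBall (0 : Fin n → E3) R') * μ A := by
    intro A hA
    have h1 : ∀ y ∈ B, volume {P : Fin n → E3 | ‖P‖ ≤ R ∧ V P ∈ A} ≤
        ∫⁻ P in Metric.closedBall (0 : Fin n → E3) R', A.indicator (fun _ => (1 : ENNReal)) (V P + y) := by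
      intro y hy
      have hy1 : ‖g y‖ ≤ ‖g‖ := by
        have h2 := g.le_opNorm y
        have h3 : ‖y‖ ≤ 1 := by simpa [hB] using hy
        have h4 : ‖g‖ * ‖y‖ ≤ ‖g‖ * 1 := mul_le_mul_of_nonneg_left h3 (norm_nonneg _)
        linarith
      rw [← measure_preimage_add_right volume (g y)]
      have hm : MeasurableSet {P : Fin n → E3 | V P + y ∈ A} :=
        (hVc.add continuous_const).measurable hA
      have h5 : ∫⁻ P in Metric.closedBall (0 : Fin n → E3) R',
          A.indicator (fun _ => (1 : ENNReal)) (V P + y) =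
          volume ({P : Fin n → E3 | V P + y ∈ A} ∩ Metric.closedBall (0 : Fin n → E3) R') := by
        have h6 : (fun P : Fin n → E3 => A.indicator (fun _ => (1 : ENNReal)) (V P + y)) =
            {P : Fin n → E3 | V P + y ∈ A}.indicator (fun _ => 1) := by
          funext P
          by_cases h : V P + y ∈ A
          · rw [Set.indicator_of_mem h, Set.indicator_of_mem (by exact h)]
          · rw [Set.indicator_of_notMem h, Set.indicator_of_notMem (by exact h)]
        rw [h6, lintegral_indicator hm, lintegral_one, Measure.restrict_apply_univ,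
          Measure.restrict_apply hm]
      rw [h5]
      apply measure_mono
      intro P hP
      obtain ⟨h7, h8⟩ : ‖P + g y‖ ≤ R ∧ V (P + g y) ∈ A := hP
      refine ⟨?_, ?_⟩
      · change V P + y ∈ A
        rw [map_add, hg] at h8
        exact h8
      · rw [Metric.mem_closedBall, dist_zero_right, hR']
        have h9 := norm_sub_le (P + g y) (g y)
        rw [add_sub_cancel_right] at h9
        linarith
    have hmeas : Measurable (fun z : F × (Fin n → E3) =>
        A.indicator (fun _ => (1 : ENNReal)) (V z.2 + z.1)) := by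
      have h2 : Measurable (fun z : F × (Fin n → E3) => V z.2 + z.1) :=
        ((hVc.comp continuous_snd).add continuous_fst).measurable
      exact (measurable_const.indicator hA).comp h2
    calc μ B * volume {P : Fin n → E3 | ‖P‖ ≤ R ∧ V P ∈ A}
        = ∫⁻ _y in B, volume {P : Fin n → E3 | ‖P‖ ≤ R ∧ V P ∈ A} ∂μ := by
          rw [setLIntegral_const, mul_comm]
      _ ≤ ∫⁻ y in B, ∫⁻ P in Metric.closedBall (0 : Fin n → E3) R',
            A.indicator (fun _ => (1 : ENNReal)) (V P + y) ∂volume ∂μ :=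
          setLIntegral_mono' Metric.isClosed_closedBall.measurableSet h1
      _ = ∫⁻ P in Metric.closedBall (0 : Fin n → E3) R', ∫⁻ y in B,
            A.indicator (fun _ => (1 : ENNReal)) (V P + y) ∂μ ∂volume :=
          lintegral_lintegral_swap hmeas.aemeasurable
      _ ≤ ∫⁻ _P in Metric.closedBall (0 : Fin n → E3) R', μ A := by
          apply lintegral_mono
          intro P
          refine (setLIntegral_le_lintegral _ _).trans ?_
          have hm : MeasurableSet {y : F | V P + y ∈ A} :=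
            (continuous_const.add continuous_id).measurable hA
          have h6 : (fun y : F => A.indicator (fun _ => (1 : ENNReal)) (V P + y)) =
              {y : F | V P + y ∈ A}.indicator (fun _ => 1) := by
            funext y
            by_cases h : V P + y ∈ A
            · rw [Set.indicator_of_mem h, Set.indicator_of_mem (by exact h)]
            · rw [Set.indicator_of_notMem h, Set.indicator_of_notMem (by exact h)]
          rw [h6, lintegral_indicator hm, lintegral_one, Measure.restrict_apply_univ]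
          exact (measure_preimage_add μ (V P) A).le
      _ = _ := by rw [setLIntegral_const, mul_comm]
  have h2 := key (toMeasurable μ A0) (measurableSet_toMeasurable _ _)
  rw [measure_toMeasurable] at h2
  have h3 : volume {P : Fin n → E3 | ‖P‖ ≤ R ∧ V P ∈ A0} ≤
      volume {P : Fin n → E3 | ‖P‖ ≤ R ∧ V P ∈ toMeasurable μ A0} :=
    measure_mono (fun P hP => ⟨hP.1, subset_toMeasurable _ _ hP.2⟩)
  refine h3.trans ?_
  rw [ENNReal.div_eq_inv_mul, mul_assoc]
  exact (ENNReal.mul_le_iff_le_inv hB0 hBt).1 h2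

/-- one relative velocity is small -/
theorem small {n : ℕ} (V : (Fin n → E3) →ₗ[ℝ] E3) (hV : Function.Surjective V) (R : ℝ) :
    ∃ C : ℝ, 0 ≤ C ∧ ∀ r : ℝ, 0 ≤ r →
      volume {P : Fin n → E3 | ‖P‖ ≤ R ∧ ‖V P‖ < r} ≤ ENNReal.ofReal (C * r ^ 3) := by
  obtain ⟨C1, hC1, h1⟩ := pushF volume n V hV R
  have hBt : volume (Metric.ball (0 : E3) 1) ≠ ⊤ := Metric.isBounded_ball.measure_lt_top.ne
  refine ⟨C1 * (volume (Metric.ball (0 : E3) 1)).toReal, mul_nonneg hC1 ENNReal.toReal_nonneg,
    fun r hr => ?_⟩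
  have h2 := h1 (Metric.ball 0 r)
  have h3 : {P : Fin n → E3 | ‖P‖ ≤ R ∧ ‖V P‖ < r} = {P : Fin n → E3 | ‖P‖ ≤ R ∧ V P ∈ Metric.ball 0 r} := by
    ext P
    simp
  rw [h3]
  refine h2.trans (le_of_eq ?_)
  rw [Measure.addHaar_ball volume (0 : E3) hr, finrank_euclideanSpace_fin,
    ENNReal.ofReal_mul (mul_nonneg hC1 ENNReal.toReal_nonneg), ENNReal.ofReal_mul hC1,
    ENNReal.ofReal_toReal hBt]
  ring

/-- two relative velocities are almost parallel to the relative positions -/
theorem slab2 {n : ℕ} (V W : (Fin n → E3) →ₗ[ℝ] E3) (hVW : ∀ A B, ∃ P, V P = A ∧ W P = B) (R : ℝ)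
    (hR : 0 < R) :
    ∃ C : ℝ, 0 ≤ C ∧ ∀ X Y : E3, X ≠ 0 → Y ≠ 0 → ∀ t : ℝ, 0 ≤ t →
      volume {P : Fin n → E3 | ‖P‖ ≤ R ∧ gr X (V P) < t * ‖X‖ ^ 2 ∧ gr Y (W P) < t * ‖Y‖ ^ 2} ≤
        ENNReal.ofReal (C * t ^ 2) := by
  have hs : Function.Surjective (V.prod W) := by
    rintro ⟨A, B⟩
    obtain ⟨P, h1, h2⟩ := hVW A B
    exact ⟨P, Prod.ext h1 h2⟩
  obtain ⟨C1, hC1, h1⟩ := pushF (volume.prod volume : Measure (E3 × E3)) n (V.prod W) hs R
  set L := LinearMap.toContinuousLinearMap V with hL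
  set L' := LinearMap.toContinuousLinearMap W with hL'
  obtain ⟨C2, hC2, h2⟩ := Pool.Agent.Y407.NW.cyl (‖L‖ * R + ‖L'‖ * R + 1) (by positivity)
  refine ⟨C1 * (C2 * C2), mul_nonneg hC1 (mul_nonneg hC2 hC2), fun X Y hX hY t ht => ?_⟩
  have h3 := h1 ({v : E3 | ‖v‖ ≤ ‖L‖ * R + ‖L'‖ * R + 1 ∧ gr X v < t * ‖X‖ ^ 2} ×ˢ
    {v : E3 | ‖v‖ ≤ ‖L‖ * R + ‖L'‖ * R + 1 ∧ gr Y v < t * ‖Y‖ ^ 2})
  refine (measure_mono ?_).trans (h3.trans ?_)
  · rintro P ⟨hP1, hP2, hP3⟩
    refine ⟨hP1, ⟨?_, hP2⟩, ⟨?_, hP3⟩⟩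
    · have h4 : ‖L P‖ ≤ ‖L‖ * ‖P‖ := L.le_opNorm P
      have h5 : ‖L‖ * ‖P‖ ≤ ‖L‖ * R := by gcongr
      have h6 : L P = V P := rfl
      have h7 : 0 ≤ ‖L'‖ * R := by positivity
      rw [h6] at h4
      show ‖V P‖ ≤ _
      linarith
    · have h4 : ‖L' P‖ ≤ ‖L'‖ * ‖P‖ := L'.le_opNorm P
      have h5 : ‖L'‖ * ‖P‖ ≤ ‖L'‖ * R := by gcongr
      have h6 : L' P = W P := rfl
      have h7 : 0 ≤ ‖L‖ * R := by positivity
      rw [h6] at h4
      show ‖W P‖ ≤ _
      linarith
  · rw [Measure.prod_prod, mul_assoc, ENNReal.ofReal_mul hC1]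
    gcongr
    refine (mul_le_mul' (h2 X hX t ht) (h2 Y hY t ht)).trans (le_of_eq ?_)
    rw [← ENNReal.ofReal_mul (mul_nonneg hC2 ht)]
    congr 1
    ring

end Pool.Agent.Q130.NX
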