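import Pool.Agent.Y516.NW.Wand

set_option autoImplicit false

/-! Project NX: uniqueness of the motions and reversal of time. -/

namespace Pool.Agent.Q130.NX

open MeasureTheory Set Filter Topology Pool.Agent.Y516.NW

variable {N : ℕ}

/-- two global solutions in an open set which agree at one time are equal -/
theorem uniq {E : Type*} [NormedAddCommGroup E] [NormedSpace ℝ E] (Ω : Set E) (hΩ : IsOpen Ω) (Z : E → E)
    (hZ : ContDiffOn ℝ 1 Z Ω) (u v : ℝ → E) (hu : ∀ t, u t ∈ Ω ∧ HasDerivAt u (Z (u t)) t)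
    (hv : ∀ t, v t ∈ Ω ∧ HasDerivAt v (Z (v t)) t) (t0 : ℝ) (h0 : u t0 = v t0) : ∀ t, u t = v t := by
  have huc : Continuous u := continuous_iff_continuousAt.2 fun t => (hu t).2.continuousAt
  have hvc : Continuous v := continuous_iff_continuousAt.2 fun t => (hv t).2.continuousAt
  have hopen : IsOpen {t | u t = v t} := by
    rw [isOpen_iff_mem_nhds]
    intro t ht
    have ht' : u t = v t := ht
    obtain ⟨K, s, hs, hLip⟩ := (hZ.contDiffAt (hΩ.mem_nhds (hu t).1)).exists_lipschitzOnWith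
    have e1 : ∀ᶠ r in 𝓝 t, u r ∈ s := huc.continuousAt.eventually hs
    have e2 : ∀ᶠ r in 𝓝 t, v r ∈ s := hvc.continuousAt.eventually (ht' ▸ hs)
    exact ODE_solution_unique_of_eventually (v := fun _ => Z) (s := fun _ => s)
      (Eventually.of_forall fun _ => hLip)
      (e1.mono fun r hr => ⟨(hu r).2, hr⟩) (e2.mono fun r hr => ⟨(hv r).2, hr⟩) ht'
  have hcl : IsClosed {t | u t = v t} := isClosed_eq huc hvc
  have huniv := IsClopen.eq_univ ⟨hcl, hopen⟩ ⟨t0, h0⟩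
  intro t
  have : t ∈ {t | u t = v t} := by rw [huniv]; trivial
  exact this

theorem Z_diff (m : Fin N → ℝ) (ψ : Cfg N × Cfg N → ℝ) (h : ContDiffOn ℝ 1 ψ (Free N)) :
    ContDiffOn ℝ 1 (Z m ψ) (Free N) := by
  unfold Z
  have h1 : ContDiff ℝ 1 (fun x : Cfg N × Cfg N => (fun i => (m i)⁻¹ • x.2 i : Cfg N)) := by
    rw [contDiff_pi]
    intro i
    have h2 : ContDiff ℝ 1 (fun x : Cfg N × Cfg N => x.2 i) := (contDiff_apply ℝ E3 i).comp contDiff_snd
    exact h2.const_smul ((m i)⁻¹ : ℝ)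
  refine h.smul (ContDiffOn.prodMk h1.contDiffOn ?_)
  · rw [contDiffOn_pi]
    intro i
    refine ContDiffOn.sum fun j _ => ?_
    by_cases hij : j = i
    · subst hij
      simp only [sub_self, smul_zero]
      exact contDiffOn_const
    · have hc : ContDiff ℝ 1 fun x : Cfg N × Cfg N => x.1 j - x.1 i :=
        ((contDiff_apply ℝ E3 j).comp contDiff_fst).sub ((contDiff_apply ℝ E3 i).comp contDiff_fst)
      have hne : ∀ x ∈ Free N, x.1 j - x.1 i ≠ 0 := fun x hx => sub_ne_zero.mpr (hx j i hij)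
      refine ContDiffOn.smul (ContDiffOn.div contDiffOn_const ?_ ?_) hc.contDiffOn
      · exact (ContDiffOn.norm ℝ hc.contDiffOn hne).pow 3
      · intro x hx
        exact pow_ne_zero 3 (norm_ne_zero_iff.mpr (sub_ne_zero.mpr (hx j i hij)))

/-- reversal of the velocities -/
def fl (x : Cfg N × Cfg N) : Cfg N × Cfg N := (x.1, -x.2)

theorem fl_fl (x : Cfg N × Cfg N) : fl (fl x) = x := by
  unfold fl; simp

theorem fl_cont : Continuous (fl : Cfg N × Cfg N → Cfg N × Cfg N) :=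
  continuous_fst.prodMk continuous_snd.neg

theorem fl_free {x : Cfg N × Cfg N} (h : x ∈ Free N) : fl x ∈ Free N := h

theorem fl_surf {m : Fin N → ℝ} {E : ℝ} {x : Cfg N × Cfg N} (h : x ∈ Surf m E) : fl x ∈ Surf m E := by
  refine ⟨h.1, h.2.1, ?_, ?_⟩
  · have := h.2.2.1
    simp only [fl, Pi.neg_apply, Finset.sum_neg_distrib, this, neg_zero]
  · have := h.2.2.2
    simpa only [fl, Pi.neg_apply, norm_neg] using this

theorem group (m : Fin N → ℝ) (E : ℝ) (ψ : Cfg N × Cfg N → ℝ) (hψ : ContDiffOn ℝ 1 ψ (Free N))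
    (φ : ℝ → Cfg N × Cfg N → Cfg N × Cfg N) (hφ : IsFl m E ψ φ) (y : Cfg N × Cfg N)
    (hy : y ∈ Surf m E) (t : ℝ) : φ (-t) (φ t y) = y := by
  have h1 := hφ.flow y hy
  have h2 := hφ.flow (φ t y) (h1.2 t).1
  have h3 := uniq (Free N) free_open (Z m ψ) (Z_diff m ψ hψ) (fun s => φ s (φ t y)) (fun s => φ (s + t) y)
    (fun s => ⟨surf_free m E (h2.2 s).1, (h2.2 s).2⟩)
    (fun s => ⟨surf_free m E (h1.2 (s + t)).1, by
      have := (h1.2 (s + t)).2
      exact this.comp_add_const s t⟩) 0 (by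
        show φ 0 (φ t y) = φ (0 + t) y
        rw [h2.1, zero_add]) (-t)
  have h4 : φ (-t) (φ t y) = φ (-t + t) y := h3
  rw [h4, neg_add_cancel, h1.1]

theorem rev (m : Fin N → ℝ) (E : ℝ) (ψ : Cfg N × Cfg N → ℝ)
    (φ : ℝ → Cfg N × Cfg N → Cfg N × Cfg N) (hφ : IsFl m E ψ φ) :
    IsFl m E (fun x => ψ (fl x)) (fun t x => fl (φ (-t) (fl x))) := by
  refine ⟨?_, ?_, ?_⟩
  · exact hφ.cont.comp fl_cont.continuousOn (fun x hx => fl_free hx)
  · intro x hx
    exact hφ.pos _ (fl_free hx)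
  · intro x hx
    have h1 := hφ.flow (fl x) (fl_surf hx)
    refine ⟨?_, fun t => ⟨fl_surf (h1.2 (-t)).1, ?_⟩⟩
    · show fl (φ (-0) (fl x)) = x
      rw [neg_zero, h1.1, fl_fl]
    · have h2 := (h1.2 (-t)).2
      have h3 : HasDerivAt (fun s : ℝ => φ (-s) (fl x)) (-Z m ψ (φ (-t) (fl x))) t := by
        have h7 : HasDerivAt (fun s : ℝ => φ (-s) (fl x)) ((-1 : ℝ) • Z m ψ (φ (-t) (fl x))) t :=
          h2.scomp t (hasDerivAt_neg t)
        exact h7.congr_deriv (neg_one_smul ℝ _)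
      have h4 : HasDerivAt (fun s : ℝ => (φ (-s) (fl x)).1) (-Z m ψ (φ (-t) (fl x))).1 t :=
        (ContinuousLinearMap.fst ℝ (Cfg N) (Cfg N)).hasFDerivAt.comp_hasDerivAt t h3
      have h5 : HasDerivAt (fun s : ℝ => (φ (-s) (fl x)).2) (-Z m ψ (φ (-t) (fl x))).2 t :=
        (ContinuousLinearMap.snd ℝ (Cfg N) (Cfg N)).hasFDerivAt.comp_hasDerivAt t h3
      have h6 := h4.prodMk h5.neg
      refine h6.congr_deriv ?_
      simp only [Z, fl, neg_neg]
      refine Prod.ext ?_ ?_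
      · funext i
        simp only [Prod.fst_neg, Prod.smul_fst, Pi.neg_apply, Pi.smul_apply, smul_neg]
      · funext i
        simp only [Prod.snd_neg, Prod.smul_snd, Pi.neg_apply, Pi.smul_apply, neg_neg]

theorem nonW_rev (m : Fin N → ℝ) (E : ℝ) (ψ : Cfg N × Cfg N → ℝ) (hψ : ContDiffOn ℝ 1 ψ (Free N))
    (φ : ℝ → Cfg N × Cfg N → Cfg N × Cfg N) (hφ : IsFl m E ψ φ) (x : Cfg N × Cfg N)
    (h : NonW (Surf m E) φ x) : NonW (Surf m E) (fun t x => fl (φ (-t) (fl x))) (fl x) := by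
  intro V hV hx T
  obtain ⟨t, ht, y, ⟨hyV, hyS⟩, hφy⟩ := h (fl ⁻¹' V) (hV.preimage fl_cont) hx T
  refine ⟨t, ht, fl (φ t y), ⟨hφy, fl_surf ((hφ.flow y hyS).2 t).1⟩, ?_⟩
  show fl (φ (-t) (fl (fl (φ t y)))) ∈ V
  rw [fl_fl, group m E ψ hψ φ hφ y hyS t]
  exact hyV

end Pool.Agent.Q130.NX
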