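import Pool.Agent.Y275.NW.Boot

set_option autoImplicit false

/-! Project NX: the relative velocities of two different pairs of clusters are independent. -/

namespace Pool.Agent.Q130.NX

open MeasureTheory Set Pool.Agent.Y516.NW

theorem ex_alpha {ι : Type*} [DecidableEq ι] (i j k l : ι) (hij : i ≠ j) (_hkl : k ≠ l)
    (h1 : ¬(i = k ∧ j = l)) (h2 : ¬(i = l ∧ j = k)) :
    ∃ α : ι → ℝ, α i - α j = 1 ∧ α k - α l = 0 := by
  by_cases h : i = k ∨ i = l
  · refine ⟨fun x => if x = j then -1 else 0, ?_, ?_⟩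
    · simp [hij]
    · have hk : k ≠ j := by
        rintro rfl
        rcases h with h | h
        · exact hij h
        · exact h2 ⟨h, rfl⟩
      have hl : l ≠ j := by
        rintro rfl
        rcases h with h | h
        · exact h1 ⟨h, rfl⟩
        · exact hij h
      simp [hk, hl]
  · push Not at h
    refine ⟨fun x => if x = i then 1 else 0, ?_, ?_⟩
    · simp [hij.symm]
    · simp [h.1.symm, h.2.symm]

theorem surj2 (n : ℕ) (m : Fin (n + 1) → ℝ) (hm : ∀ i, 0 < m i) (a b : Fin (n + 1))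
    (i j k l : Fin (n + 1)) (hib : i ≠ b) (hjb : j ≠ b) (hkb : k ≠ b) (hlb : l ≠ b)
    (hij : i ≠ j) (hkl : k ≠ l) (h1 : ¬(i = k ∧ j = l)) (h2 : ¬(i = l ∧ j = k)) (A B : E3) :
    ∃ P : Fin n → E3,
      cm m a b (fun k => (m k)⁻¹ • mom P k) i - cm m a b (fun k => (m k)⁻¹ • mom P k) j = A ∧
      cm m a b (fun k => (m k)⁻¹ • mom P k) k - cm m a b (fun k => (m k)⁻¹ • mom P k) l = B := by
  obtain ⟨α, hα1, hα2⟩ := ex_alpha i j k l hij hkl h1 h2
  obtain ⟨β, hβ1, hβ2⟩ := ex_alpha k l i j hkl hij (fun h => h1 ⟨h.1.symm, h.2.symm⟩)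
    (fun h => h2 ⟨h.2.symm, h.1.symm⟩)
  -- velocities
  obtain ⟨r, hr⟩ : ∃ r : Fin (n + 1) → Fin (n + 1), r = fun c => if c = b then a else c := ⟨_, rfl⟩
  obtain ⟨v, hv⟩ : ∃ v : Fin (n + 1) → E3, v = fun c => α (r c) • A + β (r c) • B := ⟨_, rfl⟩
  obtain ⟨s, hs⟩ : ∃ s : ℝ, s = ∑ c, m c := ⟨_, rfl⟩
  have hspos : 0 < s := by
    rw [hs]; exact Finset.sum_pos (fun c _ => hm c) ⟨0, Finset.mem_univ _⟩
  obtain ⟨u, hu⟩ : ∃ u : E3, u = s⁻¹ • ∑ c, m c • v c := ⟨_, rfl⟩
  obtain ⟨p, hp⟩ : ∃ p : Cfg (n + 1), p = fun c => m c • (v c - u) := ⟨_, rfl⟩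
  have hsum : ∑ c, p c = 0 := by
    rw [hp]
    simp only [smul_sub, Finset.sum_sub_distrib]
    rw [← Finset.sum_smul, ← hs, hu, smul_smul, mul_inv_cancel₀ hspos.ne', one_smul, sub_self]
  refine ⟨fun c => p c.castSucc, ?_⟩
  rw [Pool.Agent.Y275.NW.mom_of_sum p hsum]
  have hvel : (fun c => (m c)⁻¹ • p c) = fun c => v c - u := by
    funext c
    rw [hp]
    simp only
    rw [smul_smul, inv_mul_cancel₀ (hm c).ne', one_smul]
  rw [hvel]
  have hvb : v b = v a := by
    rw [hv]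
    simp only [hr]
    by_cases hab : a = b
    · simp [hab]
    · simp
  have hcm : ∀ c, c ≠ b → cm m a b (fun c => v c - u) c = v c - u := by
    intro c hc
    unfold cm
    split_ifs with h
    · rcases h with h | h
      · beta_reduce
        rw [hvb, h, ← add_smul, smul_smul, inv_mul_cancel₀ (add_pos (hm a) (hm b)).ne', one_smul]
      · exact absurd h hc
    · rfl
  rw [hcm i hib, hcm j hjb, hcm k hkb, hcm l hlb]
  have hvc : ∀ c, c ≠ b → v c = α c • A + β c • B := by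
    intro c hc
    rw [hv]
    simp only [hr]
    rw [if_neg hc]
  constructor
  · rw [hvc i hib, hvc j hjb]
    have : α i • A + β i • B - u - (α j • A + β j • B - u) = (α i - α j) • A + (β i - β j) • B := by
      rw [sub_smul, sub_smul]; abel
    rw [this, hα1, hβ2, one_smul, zero_smul, add_zero]
  · rw [hvc k hkb, hvc l hlb]
    have : α k • A + β k • B - u - (α l • A + β l • B - u) = (α k - α l) • A + (β k - β l) • B := by
      rw [sub_smul, sub_smul]; abel
    rw [this, hα2, hβ1, one_smul, zero_smul, zero_add]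

end Pool.Agent.Q130.NX
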