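import Pool.Agent.Y421.NW.Line

set_option autoImplicit false

/-! Project NX: half lines which keep away from the origin. -/

namespace Pool.Agent.Q130.NX

open Set Pool.Agent.Y516.NW

/-- transversal, or receding with speed at least `w` -/
def FG (w : ℝ) (X V : E3) : Prop :=
  w ^ 2 * ‖X‖ ^ 2 ≤ gr X V ∨ (0 ≤ inner ℝ X V ∧ w ≤ ‖V‖)

open Classical in
/-- lower bound of the distance from the origin along the half line -/
noncomputable def FF (w : ℝ) (X V : E3) (s : ℝ) : ℝ :=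
  if w ^ 2 * ‖X‖ ^ 2 ≤ gr X V then ‖X + s • V‖ else Real.sqrt (‖X‖ ^ 2 + s ^ 2 * ‖V‖ ^ 2)

theorem line2 (X V : E3) (w : ℝ) (hw : 0 < w) (hX : X ≠ 0) (h : FG w X V) :
    (∀ s : ℝ, 0 ≤ s → FF w X V s ≤ ‖X + s • V‖) ∧
    (∀ s : ℝ, 0 ≤ s → w * ‖X‖ ≤ ‖V‖ * FF w X V s) ∧
    (∀ s : ℝ, 0 ≤ s → s * w ≤ FF w X V s) ∧
    ∃ Θ : ℝ → ℝ, (∀ s, HasDerivAt Θ (1 / FF w X V s ^ 2) s) ∧
      ∀ s, 0 ≤ s → Θ s - Θ 0 ≤ Real.pi / (w * ‖X‖) := by
  by_cases hG : w ^ 2 * ‖X‖ ^ 2 ≤ gr X V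
  · obtain ⟨h1, h2, Θ, h3, h4⟩ := Pool.Agent.Y421.NW.line X V w hw hX hG
    have e : ∀ s, FF w X V s = ‖X + s • V‖ := fun s => by simp only [FF, if_pos hG]
    refine ⟨fun s _ => (e s).le, fun s _ => ?_, fun s hs => ?_, Θ, fun s => ?_, fun s _ => h4 s⟩
    · rw [e]; exact h1 s
    · rw [e]; have := h2 s; rwa [abs_of_nonneg hs] at this
    · rw [e]; exact h3 s
  · have hXp : 0 < ‖X‖ := norm_pos_iff.2 hX
    obtain ⟨hin, hV⟩ := h.resolve_left hG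
    have hVp : 0 < ‖V‖ := hw.trans_le hV
    have e : ∀ s, FF w X V s = Real.sqrt (‖X‖ ^ 2 + s ^ 2 * ‖V‖ ^ 2) := fun s => by
      simp only [FF, if_neg hG]
    have hXs : ∀ s : ℝ, ‖X‖ ≤ Real.sqrt (‖X‖ ^ 2 + s ^ 2 * ‖V‖ ^ 2) := fun s =>
      Real.le_sqrt_of_sq_le (by nlinarith [mul_nonneg (sq_nonneg s) (sq_nonneg ‖V‖)])
    refine ⟨fun s hs => ?_, fun s hs => ?_, fun s hs => ?_,
      fun s => 1 / (‖X‖ * ‖V‖) * Real.arctan (s * (‖V‖ / ‖X‖)), fun s => ?_, fun s hs => ?_⟩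
    · rw [e]
      refine Real.sqrt_le_iff.mpr ⟨norm_nonneg _, ?_⟩
      rw [Pool.Agent.Y421.NW.expand]
      nlinarith [mul_nonneg hs hin]
    · rw [e]
      exact mul_le_mul hV (hXs s) hXp.le hVp.le
    · rw [e]
      refine Real.le_sqrt_of_sq_le ?_
      have : w ^ 2 ≤ ‖V‖ ^ 2 := by gcongr
      nlinarith [mul_le_mul_of_nonneg_left this (sq_nonneg s), sq_nonneg ‖X‖]
    · have h1 : HasDerivAt (fun s : ℝ => s * (‖V‖ / ‖X‖)) (‖V‖ / ‖X‖) s := by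
        have := (hasDerivAt_id s).mul_const (‖V‖ / ‖X‖)
        rwa [one_mul] at this
      have h2 := (h1.arctan).const_mul (1 / (‖X‖ * ‖V‖))
      have h3 : 1 / FF w X V s ^ 2 =
          1 / (‖X‖ * ‖V‖) * (1 / (1 + (s * (‖V‖ / ‖X‖)) ^ 2) * (‖V‖ / ‖X‖)) := by
        rw [e, Real.sq_sqrt (by positivity)]
        field_simp
      rw [h3]
      exact h2
    · have h1 := Real.arctan_lt_pi_div_two (s * (‖V‖ / ‖X‖))
      beta_reduce
      rw [zero_mul, Real.arctan_zero, mul_zero, sub_zero]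
      have hpi := Real.pi_pos
      calc 1 / (‖X‖ * ‖V‖) * Real.arctan (s * (‖V‖ / ‖X‖))
          ≤ 1 / (‖X‖ * ‖V‖) * Real.pi := by
            refine mul_le_mul_of_nonneg_left ?_ (by positivity)
            linarith
        _ = Real.pi / (‖V‖ * ‖X‖) := by rw [mul_comm ‖X‖ ‖V‖]; ring
        _ ≤ Real.pi / (w * ‖X‖) := by gcongr

end Pool.Agent.Q130.NX
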