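import Pool.Agent.Y516.NW.Wand
import Pool.Agent.Q130.NX.Step
import Pool.Agent.Q130.NX.Line2

set_option autoImplicit false

/-! Project NX: points whose clusters separate in the future are wandering. Adapted from
`Pool.Agent.Y516.NW.Wand`. -/

namespace Pool.Agent.Q130.NX

open MeasureTheory Set Pool.Agent.Y516.NW

variable {N : ℕ}

theorem curve (hBoot : BootStm) (hAcc : AccStm) (hEner : EnerStm)
    (m : Fin N → ℝ) (M μ : ℝ) (hμ : 0 < μ) (hm : ∀ i, μ ≤ m i) (hM : ∑ i, m i ≤ M)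
    (a b : Fin N) (hab : a ≠ b) (q v : ℝ → Cfg N) (c τ : ℝ → ℝ) (E : ℝ) (hE : E ≤ 0)
    (hmot : Mot m E q v c τ)
    (w δ : ℝ) (hw : 0 < w) (hδ : 0 < δ) (hC : 1000 * (M + M ^ 2 / μ) ≤ w ^ 2 * δ)
    (hX : ∀ i j, P2 a b i j → δ ≤ ‖cm m a b (q 0) i - cm m a b (q 0) j‖)
    (hG : ∀ i j, P2 a b i j →
      FG w (cm m a b (q 0) i - cm m a b (q 0) j) (cm m a b (v 0) i - cm m a b (v 0) j))
    (hr : ‖q 0 a - q 0 b‖ ≤ δ / 16) :
    ∀ t, 0 ≤ t → ∀ i j, P2 a b i j →
      ‖(cm m a b (v t) i - cm m a b (v t) j) - (cm m a b (v 0) i - cm m a b (v 0) j)‖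
        ≤ w / 8 := by
  set X : Fin N → Fin N → E3 := fun i j => cm m a b (q 0) i - cm m a b (q 0) j with hXdef
  set V : Fin N → Fin N → E3 := fun i j => cm m a b (v 0) i - cm m a b (v 0) j with hVdef
  have hne : ∀ i j, P2 a b i j → X i j ≠ 0 := fun i j h =>
    norm_pos_iff.mp (hδ.trans_le (hX i j h))
  have hl := fun i j h => line2 (X i j) (V i j) w hw (hne i j h) (hG i j h)
  have hT : ∀ i j, ∃ Θ : ℝ → ℝ, P2 a b i j →
      (∀ s, HasDerivAt Θ (1 / FF w (X i j) (V i j) s ^ 2) s) ∧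
      ∀ s, 0 ≤ s → Θ s - Θ 0 ≤ Real.pi / (w * ‖X i j‖) := by
    intro i j
    by_cases h : P2 a b i j
    · obtain ⟨Θ, h1, h2⟩ := (hl i j h).2.2.2
      exact ⟨Θ, fun _ => ⟨h1, h2⟩⟩
    · exact ⟨fun _ => 0, fun h' => absurd h' h⟩
  choose Θ hΘ using hT
  have hstep := fun (T : ℝ) (hT : 0 ≤ T) => step hAcc hEner m M μ hμ hm hM a b hab q v c τ E hE
    hmot w δ hw hδ hC X V (fun _ _ => rfl) (fun _ _ => rfl) hX (FF w)
    (fun i j h => (hl i j h).1) (fun i j h => (hl i j h).2.1) (fun i j h => (hl i j h).2.2.1) Θ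
    (fun i j h => (hΘ i j h).1) (fun i j h => (hΘ i j h).2) T hT
  -- continuity
  have hτc : Continuous τ := continuous_iff_continuousAt.mpr fun t => (hmot.τd t).continuousAt
  have hqc : ∀ i, Continuous fun t => q t i := fun i =>
    continuous_iff_continuousAt.mpr fun t => (hmot.qd t i).continuousAt
  have hcm : ∀ i, Continuous fun t => cm m a b (q t) i := fun i =>
    continuous_iff_continuousAt.mpr fun t =>
      (cm_hasDerivAt m a b q (fun i => c t • v t i) t (hmot.qd t) i).continuousAt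
  have hDc : ∀ i j, Continuous fun t => ‖X i j + τ t • V i j‖ := fun i j =>
    (continuous_const.add (hτc.smul continuous_const)).norm
  let ι := {p : Fin N × Fin N // P2 a b p.1 p.2} × Bool
  let g : ι → ℝ → ℝ := fun α t =>
    if α.2 then ‖X α.1.1.1 α.1.1.2 + τ t • V α.1.1.1 α.1.1.2‖ / 2
      - ‖(cm m a b (q t) α.1.1.1 - cm m a b (q t) α.1.1.2) - X α.1.1.1 α.1.1.2
        - τ t • V α.1.1.1 α.1.1.2‖
    else ‖X α.1.1.1 α.1.1.2 + τ t • V α.1.1.1 α.1.1.2‖ / 8 - ‖q t a - q t b‖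
  have hg := hBoot ι g
    (by
      rintro ⟨⟨⟨i, j⟩, hP⟩, _ | _⟩
      · exact ((hDc i j).div_const 8).sub ((hqc a).sub (hqc b)).norm
      · exact ((hDc i j).div_const 2).sub
          ((((hcm i).sub (hcm j)).sub continuous_const).sub (hτc.smul continuous_const)).norm)
    (by
      rintro ⟨⟨⟨i, j⟩, hP⟩, _ | _⟩
      · have h1 := hX i j hP
        simp only [g, hmot.τ0, zero_smul, add_zero, Bool.false_eq_true, if_false]
        have : ‖X i j‖ = ‖cm m a b (q 0) i - cm m a b (q 0) j‖ := rfl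
        rw [← this] at h1
        linarith
      · have h1 := hX i j hP
        have h2 : cm m a b (q 0) i - cm m a b (q 0) j - X i j = 0 := by simp [X]
        simp only [g, hmot.τ0, zero_smul, add_zero, if_true, sub_zero, h2, norm_zero]
        have : ‖X i j‖ = ‖cm m a b (q 0) i - cm m a b (q 0) j‖ := rfl
        rw [← this] at h1
        linarith)
    (by
      intro T hT0 hall
      obtain ⟨_, h2, h3⟩ := hstep T hT0
        (fun t h0 h1 i j hP => by
          have := hall t h0 h1 (⟨(i, j), hP⟩, true)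
          simp only [g, if_true] at this
          linarith)
        (fun t h0 h1 i j hP => by
          have := hall t h0 h1 (⟨(i, j), hP⟩, false)
          simp only [g, Bool.false_eq_true, if_false] at this
          linarith)
      rintro ⟨⟨⟨i, j⟩, hP⟩, _ | _⟩
      · have := h3 i j hP
        simp only [g, Bool.false_eq_true, if_false]
        linarith
      · have := h2 i j hP
        simp only [g, if_true]
        linarith)
  intro t ht i j hP
  exact (hstep t ht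
    (fun s h0 h1 i j hP => by
      have := hg s h0 (⟨(i, j), hP⟩, true)
      simp only [g, if_true] at this
      linarith)
    (fun s h0 h1 i j hP => by
      have := hg s h0 (⟨(i, j), hP⟩, false)
      simp only [g, Bool.false_eq_true, if_false] at this
      linarith)).1 t ht le_rfl i j hP

/-- open version of `FG` -/
def OG (w : ℝ) (X V : E3) : Prop :=
  w ^ 2 * ‖X‖ ^ 2 < gr X V ∨ (0 < inner ℝ X V ∧ w < ‖V‖)

theorem OG.fg {w : ℝ} {X V : E3} (h : OG w X V) : FG w X V :=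
  h.imp le_of_lt (fun h => ⟨h.1.le, h.2.le⟩)

theorem FG.og {w : ℝ} {X V : E3} (hw : 0 < w) (hX : 0 < ‖X‖) (h : FG w X V) : OG (w / 2) X V := by
  have h4 : 0 < w ^ 2 * ‖X‖ ^ 2 := by positivity
  rcases h with h | ⟨h1, h2⟩
  · left
    refine lt_of_lt_of_le ?_ h
    nlinarith
  · rcases h1.eq_or_lt with h0 | h0
    · left
      unfold gr
      rw [← h0]
      have : w ^ 2 ≤ ‖V‖ ^ 2 := by gcongr
      have h5 : w ^ 2 * ‖X‖ ^ 2 ≤ ‖V‖ ^ 2 * ‖X‖ ^ 2 := mul_le_mul_of_nonneg_right this (sq_nonneg _)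
      nlinarith
    · right
      exact ⟨h0, by linarith⟩

theorem FG.norm_le {w : ℝ} {X V : E3} (hX : 0 < ‖X‖) (h : FG w X V) : w ≤ ‖V‖ := by
  rcases h with h1 | h1
  · have h3 : gr X V ≤ ‖X‖ ^ 2 * ‖V‖ ^ 2 := by
      unfold gr; nlinarith [sq_nonneg (inner ℝ X V)]
    have h4 : w ^ 2 ≤ ‖V‖ ^ 2 := by
      have h5 := h1.trans h3
      have h6 : 0 < ‖X‖ ^ 2 := by positivity
      by_contra hcon
      push Not at hcon
      nlinarith
    exact le_of_sq_le_sq h4 (norm_nonneg _)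
  · exact h1.2

/-- points with a tight pair whose clusters separate in the future are wandering -/
theorem wander (hBoot : BootStm) (hAcc : AccStm) (hEner : EnerStm)
    (hLoc : LocStm)
    (m : Fin N → ℝ) (M μ : ℝ) (hμ : 0 < μ) (hm : ∀ i, μ ≤ m i) (hM : ∑ i, m i ≤ M)
    (a b : Fin N) (hab : a ≠ b) (E : ℝ) (hE : E ≤ 0) (ψ : Cfg N × Cfg N → ℝ)
    (φ : ℝ → Cfg N × Cfg N → Cfg N × Cfg N) (hφ : IsFl m E ψ φ) (x : Cfg N × Cfg N)
    (hx : x ∈ Surf m E) (i₀ j₀ : Fin N) (hP₀ : P2 a b i₀ j₀)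
    (w δ : ℝ) (hw : 0 < w) (hδ : 0 < δ) (hC : 8000 * (M + M ^ 2 / μ) ≤ w ^ 2 * δ)
    (hX : ∀ i j, P2 a b i j → δ ≤ ‖cm m a b x.1 i - cm m a b x.1 j‖)
    (hG : ∀ i j, P2 a b i j →
      FG w (cm m a b x.1 i - cm m a b x.1 j) (cm m a b (vel m x) i - cm m a b (vel m x) j))
    (hr : ‖x.1 a - x.1 b‖ ≤ δ / 64) :
    ¬ NonW (Surf m E) φ x := by
  have hmpos : ∀ i, 0 < m i := fun i => hμ.trans_le (hm i)
  set V0 : E3 := cm m a b (vel m x) i₀ - cm m a b (vel m x) j₀ with hV0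
  have hV0w : w ≤ ‖V0‖ := (hG i₀ j₀ hP₀).norm_le (hδ.trans_le (hX i₀ j₀ hP₀))
  -- the neighbourhood
  let U1 : Set (Cfg N × Cfg N) := {y | (∀ p : Fin N × Fin N, P2 a b p.1 p.2 →
      δ / 2 < ‖cm m a b y.1 p.1 - cm m a b y.1 p.2‖ ∧
      OG (w / 2) (cm m a b y.1 p.1 - cm m a b y.1 p.2)
          (cm m a b (vel m y) p.1 - cm m a b (vel m y) p.2))}
  let U2 : Set (Cfg N × Cfg N) := {y | ‖y.1 a - y.1 b‖ < δ / 32}
  let U3 : Set (Cfg N × Cfg N) :=
    {y | ‖(cm m a b (vel m y) i₀ - cm m a b (vel m y) j₀) - V0‖ < w / 16}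
  have hU1 : IsOpen U1 := by
    have : U1 = ⋂ p : Fin N × Fin N, {y | P2 a b p.1 p.2 →
      δ / 2 < ‖cm m a b y.1 p.1 - cm m a b y.1 p.2‖ ∧
      OG (w / 2) (cm m a b y.1 p.1 - cm m a b y.1 p.2)
          (cm m a b (vel m y) p.1 - cm m a b (vel m y) p.2)} := by
      ext y; simp only [U1, mem_iInter]; rfl
    rw [this]
    refine isOpen_iInter_of_finite fun p => ?_
    by_cases hP : P2 a b p.1 p.2
    · have hPt : P2 a b p.1 p.2 = True := eq_true hP
      rw [hPt]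
      simp only [true_imp_iff]
      have c1 := (cm_cont1 m a b p.1).sub (cm_cont1 m a b p.2)
      have c2 := (cm_cont2 m a b p.1).sub (cm_cont2 m a b p.2)
      have c3 : Continuous fun y : Cfg N × Cfg N => (inner ℝ (cm m a b y.1 p.1 - cm m a b y.1 p.2)
          (cm m a b (vel m y) p.1 - cm m a b (vel m y) p.2) : ℝ) := c1.inner c2
      refine (isOpen_lt continuous_const c1.norm).inter (IsOpen.union (isOpen_lt
        (continuous_const.mul (c1.norm.pow 2)) ?_) ((isOpen_lt continuous_const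
        c3).inter (isOpen_lt continuous_const c2.norm)))
      unfold gr
      exact ((c1.norm.pow 2).mul (c2.norm.pow 2)).sub ((c1.inner c2).pow 2)
    · have hPt : P2 a b p.1 p.2 = False := eq_false hP
      rw [hPt]
      simp only [false_imp_iff]
      exact isOpen_univ
  have hU2 : IsOpen U2 := isOpen_lt
    ((((continuous_apply a).comp continuous_fst).sub ((continuous_apply b).comp
      continuous_fst)).norm) continuous_const
  have hU3 : IsOpen U3 := isOpen_lt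
    ((((cm_cont2 m a b i₀).sub (cm_cont2 m a b j₀)).sub continuous_const).norm) continuous_const
  have hxU1 : x ∈ U1 := by
    rintro ⟨i, j⟩ hP
    have h1 := hX i j hP
    have h2 := hG i j hP
    have h3 : 0 < ‖cm m a b x.1 i - cm m a b x.1 j‖ := hδ.trans_le h1
    exact ⟨by dsimp only; linarith, h2.og hw h3⟩
  have hxU2 : x ∈ U2 := by
    show ‖x.1 a - x.1 b‖ < δ / 32
    linarith
  have hxU3 : x ∈ U3 := by
    show ‖(cm m a b (vel m x) i₀ - cm m a b (vel m x) j₀) - V0‖ < w / 16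
    rw [← hV0, sub_self, norm_zero]; positivity
  -- local time
  obtain ⟨V1, hV1o, hxV1, s1, hs1, η, hη, hloc⟩ := hLoc (Cfg N × Cfg N) (Free N) (Surf m E)
    (Z m ψ) ψ φ free_open (surf_free m E) (Z_cont m ψ hφ.cont) hφ.cont hφ.pos hφ.flow x
    (surf_free m E hx)
  let G : Cfg N × Cfg N → ℝ := fun y => inner ℝ V0 (cm m a b y.1 i₀ - cm m a b y.1 j₀)
  have hGc : Continuous G :=
    continuous_const.inner ((cm_cont1 m a b i₀).sub (cm_cont1 m a b j₀))
  -- growth
  have hgrow : ∀ y ∈ (U1 ∩ U2 ∩ U3) ∩ V1 ∩ Surf m E, ∀ t ≥ s1,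
      w ^ 2 / 2 * η ≤ G (φ t y) - G y := by
    rintro y ⟨⟨⟨⟨hy1, hy2⟩, hy3⟩, hyV⟩, hyS⟩ t ht
    obtain ⟨τ, hmot⟩ := mot_of_flow m hmpos E ψ φ hφ y hyS
    have hη' := hloc y ⟨hyV, hyS⟩ τ hmot.τ0 hmot.τd t ht
    have h0 : φ 0 y = y := (hφ.flow y hyS).1
    have hcur := curve hBoot hAcc hEner m M μ hμ hm hM a b hab _ _ _ τ E hE hmot
      (w / 2) (δ / 2) (by positivity) (by positivity)
      (by nlinarith)
      (fun i j hP => by rw [h0]; exact (hy1 (i, j) hP).1.le)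
      (fun i j hP => by rw [h0]; exact (hy1 (i, j) hP).2.fg)
      (by
        rw [h0]
        have : ‖y.1 a - y.1 b‖ < δ / 32 := hy2
        linarith)
    have hder : ∀ s, HasDerivAt (fun s => G (φ s y) - w ^ 2 / 2 * τ s)
        (inner ℝ V0 (ψ (φ s y) • (cm m a b (vel m (φ s y)) i₀ - cm m a b (vel m (φ s y)) j₀))
          - w ^ 2 / 2 * ψ (φ s y)) s := by
      intro s
      have e1 := cm_hasDerivAt m a b _ (fun i => ψ (φ s y) • vel m (φ s y) i) s (hmot.qd s) i₀
      have e2 := cm_hasDerivAt m a b _ (fun i => ψ (φ s y) • vel m (φ s y) i) s (hmot.qd s) j₀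
      rw [cm_smul] at e1 e2
      have e3 := (e1.sub e2)
      rw [← smul_sub] at e3
      have e4 : HasDerivAt (fun s => inner ℝ V0 (cm m a b (φ s y).1 i₀ - cm m a b (φ s y).1 j₀))
          (inner ℝ V0 (ψ (φ s y) • (cm m a b (vel m (φ s y)) i₀
            - cm m a b (vel m (φ s y)) j₀))) s :=
        ((innerSL ℝ V0).hasFDerivAt.comp_hasDerivAt s e3)
      exact e4.sub ((hmot.τd s).const_mul _)
    have hmono : MonotoneOn (fun s => G (φ s y) - w ^ 2 / 2 * τ s) (Ici 0) := by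
      refine monotoneOn_of_deriv_nonneg (convex_Ici 0)
        (fun s _ => (hder s).continuousAt.continuousWithinAt)
        (fun s _ => (hder s).differentiableAt.differentiableWithinAt) ?_
      intro s hs
      rw [interior_Ici] at hs
      rw [(hder s).deriv, inner_smul_right]
      have hc := hmot.cpos s
      have e1 := hcur s (le_of_lt hs) i₀ j₀ hP₀
      rw [h0] at e1
      have e2 : ‖(cm m a b (vel m y) i₀ - cm m a b (vel m y) j₀) - V0‖ < w / 16 := hy3
      set A := cm m a b (vel m (φ s y)) i₀ - cm m a b (vel m (φ s y)) j₀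
      set B := cm m a b (vel m y) i₀ - cm m a b (vel m y) j₀
      have e3 : ‖A - V0‖ ≤ w / 8 := by
        have : A - V0 = (A - B) + (B - V0) := by abel
        rw [this]
        refine (norm_add_le _ _).trans ?_
        linarith
      have e4 : inner ℝ V0 A = ‖V0‖ ^ 2 + inner ℝ V0 (A - V0) := by
        rw [inner_sub_right V0 A V0, real_inner_self_eq_norm_sq]; ring
      have e5 : -(‖V0‖ * (w / 8)) ≤ inner ℝ V0 (A - V0) := by
        have h1 := abs_real_inner_le_norm V0 (A - V0)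
        have h2 : ‖V0‖ * ‖A - V0‖ ≤ ‖V0‖ * (w / 8) := by gcongr
        have h3 := neg_abs_le (inner ℝ V0 (A - V0))
        linarith
      have e6 : w ^ 2 / 2 ≤ inner ℝ V0 A := by
        rw [e4]
        nlinarith
      nlinarith
    have h1 := hmono (show (0:ℝ) ∈ Ici 0 from mem_Ici.mpr le_rfl) (show t ∈ Ici (0:ℝ) from mem_Ici.mpr (by linarith)) (by linarith)
    simp only [h0, hmot.τ0, mul_zero, sub_zero] at h1
    have h2 : w ^ 2 / 2 * η ≤ w ^ 2 / 2 * τ t := by gcongr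
    linarith
  -- conclusion
  intro hNW
  let κ := w ^ 2 / 2 * η
  have hκ : 0 < κ := by positivity
  let U4 : Set (Cfg N × Cfg N) := {y | |G y - G x| < κ / 2}
  have hU4 : IsOpen U4 := isOpen_lt ((hGc.sub continuous_const).abs) continuous_const
  have hxU4 : x ∈ U4 := by
    show |G x - G x| < κ / 2
    rw [sub_self, abs_zero]; positivity
  obtain ⟨t, ht, y, ⟨hyV, hyS⟩, hφy⟩ := hNW ((U1 ∩ U2 ∩ U3) ∩ V1 ∩ U4)
    ((((hU1.inter hU2).inter hU3).inter hV1o).inter hU4)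
    ⟨⟨⟨⟨hxU1, hxU2⟩, hxU3⟩, hxV1⟩, hxU4⟩ s1
  have h1 := hgrow y ⟨hyV.1, hyS⟩ t ht.le
  have h2 : |G y - G x| < κ / 2 := hyV.2
  have h3 : |G (φ t y) - G x| < κ / 2 := hφy.2
  rw [abs_lt] at h2 h3
  have h4 : κ = w ^ 2 / 2 * η := rfl
  linarith [h2.1, h2.2, h3.1, h3.2]

end Pool.Agent.Q130.NX
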