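import Pool.Agent.Y516.NW.Fin
import Pool.Agent.Q130.NX.Wand2
import Pool.Agent.Q130.NX.Rev
import Pool.Agent.Q130.NX.Surj2
import Pool.Agent.Q130.NX.Push2

set_option autoImplicit false

/-! Project NX: the proportion of nonwandering momenta, with the exponent `3 / 2`. Partly adapted from
`Pool.Agent.Y516.NW.Fin`. -/

namespace Pool.Agent.Q130.NX

open MeasureTheory Set Pool.Agent.Y516.NW

theorem unif {α : Type*} [Fintype α] (f : α → ℝ) (hf : ∀ x, 0 ≤ f x) :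
    ∃ C : ℝ, 0 ≤ C ∧ ∀ x, f x ≤ C :=
  ⟨∑ x, f x, Finset.sum_nonneg fun x _ => hf x, fun x =>
    Finset.single_le_sum (f := f) (fun y _ => hf y) (Finset.mem_univ x)⟩

/-- relative velocity of two clusters as a function of the momenta -/
noncomputable def RV {n : ℕ} (m : Fin (n + 1) → ℝ) (a b i j : Fin (n + 1)) (P : Fin n → E3) : E3 :=
  cm m a b (fun k => (m k)⁻¹ • mom P k) i - cm m a b (fun k => (m k)⁻¹ • mom P k) j

theorem const1 (n : ℕ) (m : Fin (n + 1) → ℝ) (hm : ∀ i, 0 < m i) (R : ℝ) :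
    ∃ C : ℝ, 0 ≤ C ∧ ∀ a b i j : Fin (n + 1), a ≠ b → P2 a b i j → ∀ r : ℝ, 0 ≤ r →
      volume {P : Fin n → E3 | ‖P‖ ≤ R ∧ ‖RV m a b i j P‖ < r} ≤ ENNReal.ofReal (C * r ^ 3) := by
  have hch : ∀ p : (Fin (n + 1) × Fin (n + 1)) × (Fin (n + 1) × Fin (n + 1)), ∃ C : ℝ, 0 ≤ C ∧
      (p.1.1 ≠ p.1.2 → P2 p.1.1 p.1.2 p.2.1 p.2.2 → ∀ r : ℝ, 0 ≤ r →
        volume {P : Fin n → E3 | ‖P‖ ≤ R ∧ ‖RV m p.1.1 p.1.2 p.2.1 p.2.2 P‖ < r}
          ≤ ENNReal.ofReal (C * r ^ 3)) := by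
    rintro ⟨⟨a, b⟩, i, j⟩
    dsimp only
    by_cases hab : a ≠ b ∧ P2 a b i j
    · obtain ⟨V, hV, hVe⟩ := Pool.Agent.Y275.NW.surj n m hm a b hab.1 i j hab.2
      obtain ⟨C, hC, h⟩ := small V hV R
      refine ⟨C, hC, fun _ _ r hr => ?_⟩
      have := h r hr
      simpa only [hVe, RV] using this
    · exact ⟨0, le_rfl, fun h1 h2 => absurd ⟨h1, h2⟩ hab⟩
  choose Cf hCf0 hCf using hch
  obtain ⟨C, hC0, hC⟩ := unif Cf hCf0
  refine ⟨C, hC0, fun a b i j hab hP r hr => (hCf ((a, b), (i, j)) hab hP r hr).trans ?_⟩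
  refine ENNReal.ofReal_le_ofReal (mul_le_mul_of_nonneg_right (hC _) (by positivity))

theorem const2 (n : ℕ) (m : Fin (n + 1) → ℝ) (hm : ∀ i, 0 < m i) (R : ℝ) (hR : 0 < R) :
    ∃ C : ℝ, 0 ≤ C ∧ ∀ a b i j k l : Fin (n + 1), a ≠ b → i ≠ b → j ≠ b → k ≠ b → l ≠ b →
      i ≠ j → k ≠ l → ¬(i = k ∧ j = l) → ¬(i = l ∧ j = k) → ∀ X Y : E3, X ≠ 0 → Y ≠ 0 →
      ∀ t : ℝ, 0 ≤ t →
      volume {P : Fin n → E3 | ‖P‖ ≤ R ∧ gr X (RV m a b i j P) < t * ‖X‖ ^ 2 ∧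
        gr Y (RV m a b k l P) < t * ‖Y‖ ^ 2} ≤ ENNReal.ofReal (C * t ^ 2) := by
  have hch : ∀ p : (Fin (n + 1) × Fin (n + 1)) × (Fin (n + 1) × Fin (n + 1)) ×
      (Fin (n + 1) × Fin (n + 1)), ∃ C : ℝ, 0 ≤ C ∧
      (p.1.1 ≠ p.1.2 → p.2.1.1 ≠ p.1.2 → p.2.1.2 ≠ p.1.2 → p.2.2.1 ≠ p.1.2 → p.2.2.2 ≠ p.1.2 →
      p.2.1.1 ≠ p.2.1.2 → p.2.2.1 ≠ p.2.2.2 → ¬(p.2.1.1 = p.2.2.1 ∧ p.2.1.2 = p.2.2.2) →
      ¬(p.2.1.1 = p.2.2.2 ∧ p.2.1.2 = p.2.2.1) → ∀ X Y : E3, X ≠ 0 → Y ≠ 0 →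
      ∀ t : ℝ, 0 ≤ t →
      volume {P : Fin n → E3 | ‖P‖ ≤ R ∧ gr X (RV m p.1.1 p.1.2 p.2.1.1 p.2.1.2 P) < t * ‖X‖ ^ 2 ∧
        gr Y (RV m p.1.1 p.1.2 p.2.2.1 p.2.2.2 P) < t * ‖Y‖ ^ 2} ≤ ENNReal.ofReal (C * t ^ 2)) := by
    rintro ⟨⟨a, b⟩, ⟨i, j⟩, k, l⟩
    dsimp only
    by_cases hab : (a ≠ b ∧ i ≠ b ∧ j ≠ b ∧ k ≠ b ∧ l ≠ b) ∧ i ≠ j ∧ k ≠ l ∧ ¬(i = k ∧ j = l) ∧
        ¬(i = l ∧ j = k)
    · obtain ⟨⟨h1, h2, h3, h4, h5⟩, h6, h7, h8, h9⟩ := hab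
      obtain ⟨V, _, hVe⟩ := Pool.Agent.Y275.NW.surj n m hm a b h1 i j
        ⟨h6, fun h => h3 h.2, fun h => h2 h.1⟩
      obtain ⟨W, _, hWe⟩ := Pool.Agent.Y275.NW.surj n m hm a b h1 k l
        ⟨h7, fun h => h5 h.2, fun h => h4 h.1⟩
      obtain ⟨C, hC, h⟩ := slab2 V W (fun A B => by
        obtain ⟨P, e1, e2⟩ := surj2 n m hm a b i j k l h2 h3 h4 h5 h6 h7 h8 h9 A B
        exact ⟨P, by rw [hVe]; exact e1, by rw [hWe]; exact e2⟩) R hR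
      refine ⟨C, hC, fun _ _ _ _ _ _ _ _ _ X Y hX hY t ht => ?_⟩
      have := h X Y hX hY t ht
      simpa only [hVe, hWe, RV] using this
    · exact ⟨0, le_rfl, fun h1 h2 h3 h4 h5 h6 h7 h8 h9 =>
        absurd ⟨⟨h1, h2, h3, h4, h5⟩, h6, h7, h8, h9⟩ hab⟩
  choose Cf hCf0 hCf using hch
  obtain ⟨C, hC0, hC⟩ := unif Cf hCf0
  refine ⟨C, hC0, fun a b i j k l h1 h2 h3 h4 h5 h6 h7 h8 h9 X Y hX hY t ht =>
    (hCf ((a, b), (i, j), (k, l)) h1 h2 h3 h4 h5 h6 h7 h8 h9 X Y hX hY t ht).trans ?_⟩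
  refine ENNReal.ofReal_le_ofReal (mul_le_mul_of_nonneg_right (hC _) (by positivity))

/-- representatives of the clusters -/
theorem reprs {N : ℕ} (m : Fin N → ℝ) (a b i j : Fin N) (hab : a ≠ b) (h : P2 a b i j) :
    ∃ i' j', i' ≠ b ∧ j' ≠ b ∧ i' ≠ j' ∧ (∀ u, cm m a b u i = cm m a b u i') ∧
      (∀ u, cm m a b u j = cm m a b u j') := by
  obtain ⟨h1, h2, h3⟩ := h
  by_cases hi : i = b
  · have hj : j ≠ b := fun hj => h1 (hi.trans hj.symm)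
    have hja : j ≠ a := fun hj => h3 ⟨hi, hj⟩
    exact ⟨a, j, hab, hj, hja.symm, fun u => by rw [hi, cm_ab], fun u => rfl⟩
  · by_cases hj : j = b
    · have hia : i ≠ a := fun hi => h2 ⟨hi, hj⟩
      exact ⟨i, a, hi, hab, hia, fun u => rfl, fun u => by rw [hj, cm_ab]⟩
    · exact ⟨i, j, hi, hj, h1, fun u => rfl, fun u => rfl⟩

theorem gr_neg_neg (X V : E3) : gr (-X) (-V) = gr X V := by
  unfold gr
  rw [norm_neg, norm_neg, inner_neg_neg]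

theorem gr_neg_right (X V : E3) : gr X (-V) = gr X V := by
  unfold gr
  rw [norm_neg, inner_neg_right]
  ring

/-- Either all clusters separate in the future, or all did in the past, unless one relative velocity is small or two
relative velocities are almost parallel to the relative positions. -/
theorem choice {N : ℕ} (m : Fin N → ℝ) (a b : Fin N) (hab : a ≠ b) (q v : Cfg N) (w : ℝ)
    (h1 : ∀ i j, i ≠ b → j ≠ b → i ≠ j → w ≤ ‖cm m a b v i - cm m a b v j‖)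
    (h2 : ∀ i j k l, i ≠ b → j ≠ b → k ≠ b → l ≠ b → i ≠ j → k ≠ l → ¬(i = k ∧ j = l) →
      ¬(i = l ∧ j = k) →
      w ^ 2 * ‖cm m a b q i - cm m a b q j‖ ^ 2 ≤
        gr (cm m a b q i - cm m a b q j) (cm m a b v i - cm m a b v j) ∨
      w ^ 2 * ‖cm m a b q k - cm m a b q l‖ ^ 2 ≤
        gr (cm m a b q k - cm m a b q l) (cm m a b v k - cm m a b v l)) :
    (∀ i j, P2 a b i j → FG w (cm m a b q i - cm m a b q j) (cm m a b v i - cm m a b v j)) ∨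
    (∀ i j, P2 a b i j → FG w (cm m a b q i - cm m a b q j) (-(cm m a b v i - cm m a b v j))) := by
  by_cases hall : ∀ i j, i ≠ b → j ≠ b → i ≠ j → w ^ 2 * ‖cm m a b q i - cm m a b q j‖ ^ 2 ≤
        gr (cm m a b q i - cm m a b q j) (cm m a b v i - cm m a b v j)
  · left
    intro i j hP
    obtain ⟨i', j', hi, hj, hij, e1, e2⟩ := reprs m a b i j hab hP
    rw [e1, e2, e1, e2]
    exact Or.inl (hall i' j' hi hj hij)
  · push Not at hall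
    obtain ⟨i0, j0, hi0, hj0, hij0, hlt⟩ := hall
    have hoth : ∀ k l, k ≠ b → l ≠ b → k ≠ l → ¬(i0 = k ∧ j0 = l) → ¬(i0 = l ∧ j0 = k) →
        w ^ 2 * ‖cm m a b q k - cm m a b q l‖ ^ 2 ≤
        gr (cm m a b q k - cm m a b q l) (cm m a b v k - cm m a b v l) := by
      intro k l hk hl hkl g1 g2
      rcases h2 i0 j0 k l hi0 hj0 hk hl hij0 hkl g1 g2 with h | h
      · exact absurd h (not_le.mpr hlt)
      · exact h
    rcases le_total 0 (inner ℝ (cm m a b q i0 - cm m a b q j0) (cm m a b v i0 - cm m a b v j0) : ℝ)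
      with hs | hs
    · left
      intro i j hP
      obtain ⟨i', j', hi, hj, hij, e1, e2⟩ := reprs m a b i j hab hP
      rw [e1, e2, e1, e2]
      by_cases g1 : i0 = i' ∧ j0 = j'
      · obtain ⟨rfl, rfl⟩ := g1
        exact Or.inr ⟨hs, h1 _ _ hi hj hij⟩
      · by_cases g2 : i0 = j' ∧ j0 = i'
        · obtain ⟨rfl, rfl⟩ := g2
          refine Or.inr ⟨?_, h1 _ _ hi hj hij⟩
          rw [← neg_sub (cm m a b q i0), ← neg_sub (cm m a b v i0), inner_neg_neg]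
          exact hs
        · exact Or.inl (hoth i' j' hi hj hij g1 g2)
    · right
      intro i j hP
      obtain ⟨i', j', hi, hj, hij, e1, e2⟩ := reprs m a b i j hab hP
      rw [e1, e2, e1, e2]
      by_cases g1 : i0 = i' ∧ j0 = j'
      · obtain ⟨rfl, rfl⟩ := g1
        refine Or.inr ⟨?_, ?_⟩
        · rw [inner_neg_right]; linarith
        · rw [norm_neg]; exact h1 _ _ hi hj hij
      · by_cases g2 : i0 = j' ∧ j0 = i'
        · obtain ⟨rfl, rfl⟩ := g2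
          refine Or.inr ⟨?_, ?_⟩
          · rw [← neg_sub (cm m a b q i0), ← neg_sub (cm m a b v i0), inner_neg_right,
              inner_neg_neg]
            linarith
          · rw [norm_neg]; exact h1 _ _ hi hj hij
        · refine Or.inl ?_
          rw [gr_neg_right]
          exact hoth i' j' hi hj hij g1 g2

end Pool.Agent.Q130.NX
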