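import Pool.Agent.Q130.NX.Fin2

set_option autoImplicit false

/-! Project NX: the proportion of nonwandering momenta, with the exponent `3 / 2`. Partly adapted from
`Pool.Agent.Y516.NW.Fin`. -/

namespace Pool.Agent.Q130.NX

open MeasureTheory Set Pool.Agent.Y516.NW

/-- the one-sided criterion, for both directions of time -/
theorem wander2 {N : ℕ}
    (m : Fin N → ℝ) (M μ : ℝ) (hμ : 0 < μ) (hm : ∀ i, μ ≤ m i) (hM : ∑ i, m i ≤ M)
    (a b : Fin N) (hab : a ≠ b) (E : ℝ) (hE : E ≤ 0) (ψ : Cfg N × Cfg N → ℝ)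
    (hψ : ContDiffOn ℝ 1 ψ (Free N))
    (φ : ℝ → Cfg N × Cfg N → Cfg N × Cfg N) (hφ : IsFl m E ψ φ) (x : Cfg N × Cfg N)
    (hx : x ∈ Surf m E) (i₀ j₀ : Fin N) (hP₀ : P2 a b i₀ j₀)
    (w δ : ℝ) (hw : 0 < w) (hδ : 0 < δ) (hC : 8000 * (M + M ^ 2 / μ) ≤ w ^ 2 * δ)
    (hX : ∀ i j, P2 a b i j → δ ≤ ‖cm m a b x.1 i - cm m a b x.1 j‖)
    (hr : ‖x.1 a - x.1 b‖ ≤ δ / 64)
    (hG : (∀ i j, P2 a b i j →
        FG w (cm m a b x.1 i - cm m a b x.1 j) (cm m a b (vel m x) i - cm m a b (vel m x) j)) ∨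
      (∀ i j, P2 a b i j →
        FG w (cm m a b x.1 i - cm m a b x.1 j) (-(cm m a b (vel m x) i - cm m a b (vel m x) j)))) :
    ¬ NonW (Surf m E) φ x := by
  rcases hG with hG | hG
  · exact wander Pool.Agent.Y275.NW.boot Pool.Agent.Y421.NW.accl Pool.Agent.Y421.NW.ener
      Pool.Agent.Y275.NW.loc m M μ hμ hm hM a b hab E hE ψ φ hφ x hx i₀ j₀ hP₀ w δ hw hδ hC hX hG hr
  · intro hN
    have h1 := nonW_rev m E ψ hψ φ hφ x hN
    have hvel : vel m (fl x) = fun k => (-1 : ℝ) • vel m x k := by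
      funext k
      simp only [vel, fl, Pi.neg_apply, smul_neg, neg_smul, one_smul]
    refine wander Pool.Agent.Y275.NW.boot Pool.Agent.Y421.NW.accl Pool.Agent.Y421.NW.ener
      Pool.Agent.Y275.NW.loc m M μ hμ hm hM a b hab E hE _ _ (rev m E ψ φ hφ) (fl x) (fl_surf hx)
      i₀ j₀ hP₀ w δ hw hδ hC hX ?_ hr h1
    intro i j hP
    have h2 := hG i j hP
    rw [hvel, cm_smul, cm_smul, ← smul_sub, neg_one_smul]
    exact h2

theorem sqrt_cube (t : ℝ) (ht : 0 ≤ t) : Real.sqrt t ^ 3 = t ^ (3 / 2 : ℝ) := by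
  rw [Real.sqrt_eq_rpow, ← Real.rpow_natCast, ← Real.rpow_mul ht]
  norm_num

theorem prop (n : ℕ) (hn : 2 ≤ n) (m : Fin (n + 1) → ℝ) (hm : ∀ i, 0 < m i) :
    ∃ C : ℝ, 0 < C ∧ ∀ E : ℝ, E ≤ 0 →
      ∀ (ψ : Cfg (n + 1) × Cfg (n + 1) → ℝ)
        (φ : ℝ → Cfg (n + 1) × Cfg (n + 1) → Cfg (n + 1) × Cfg (n + 1)),
      ContDiffOn ℝ 1 ψ (Free (n + 1)) → IsFl m E ψ φ →
      ∀ q : Cfg (n + 1), (∀ i j, i ≠ j → q i ≠ q j) → ∑ i, m i • q i = 0 →
      ∀ a b : Fin (n + 1), a ≠ b → ∀ δ : ℝ, 0 < δ → (∀ i j, P2 a b i j → δ ≤ ‖q i - q j‖) →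
      0 < pot m q + E →
      volume {P : Fin n → E3 | kin m (mom P) ≤ 1 ∧ NonW (Surf m E) φ
          (q, Real.sqrt ((pot m q + E) / kin m (mom P)) • mom P)} ≤
        ENNReal.ofReal ((C / (δ * (pot m q + E))) ^ (3 / 2 : ℝ)) *
          volume {P : Fin n → E3 | kin m (mom P) ≤ 1} := by
  obtain ⟨μ, hμ, hμm⟩ : ∃ μ : ℝ, 0 < μ ∧ ∀ i, μ ≤ m i := by
    obtain ⟨μi, _, hμi⟩ := Finset.exists_min_image Finset.univ m ⟨0, Finset.mem_univ _⟩
    exact ⟨m μi, hm μi, fun i => hμi i (Finset.mem_univ _)⟩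
  obtain ⟨M, hMdef⟩ : ∃ M : ℝ, M = ∑ i, m i := ⟨_, rfl⟩
  have hM : 0 < M := by
    rw [hMdef]; exact Finset.sum_pos (fun i _ => hm i) ⟨0, Finset.mem_univ _⟩
  obtain ⟨R, hR, hRb, hvol⟩ := Pool.Agent.Y317.NW.ball n m hm
  obtain ⟨C1, hC10, hC1⟩ := const1 n m hm R
  obtain ⟨C2, hC20, hC2⟩ := const2 n m hm R hR
  obtain ⟨Cs, hCs⟩ : ∃ Cs : ℝ, Cs = ((n + 1 : ℕ) : ℝ) ^ 2 * C1 + ((n + 1 : ℕ) : ℝ) ^ 4 * C2 := ⟨_, rfl⟩
  have hCs0 : 0 ≤ Cs := by rw [hCs]; positivity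
  obtain ⟨v0, hv0pos, hv0le⟩ : ∃ v0 : ℝ, 0 < v0 ∧
      ENNReal.ofReal v0 ≤ volume {P : Fin n → E3 | kin m (mom P) ≤ 1} := by
    have hmin : min (volume {P : Fin n → E3 | kin m (mom P) ≤ 1}) 1 ≠ ⊤ :=
      ne_top_of_le_ne_top ENNReal.one_ne_top (min_le_right _ _)
    refine ⟨(min (volume {P : Fin n → E3 | kin m (mom P) ≤ 1}) 1).toReal, ?_, ?_⟩
    · exact ENNReal.toReal_pos (lt_min hvol one_pos).ne' hmin
    · rw [ENNReal.ofReal_toReal hmin]
      exact min_le_left _ _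
  obtain ⟨A, hA⟩ : ∃ A : ℝ, A = M + M ^ 2 / μ := ⟨_, rfl⟩
  have hApos : 0 < A := by
    rw [hA]; have : 0 ≤ M ^ 2 / μ := div_nonneg (sq_nonneg _) hμ.le
    linarith
  obtain ⟨D, hD⟩ : ∃ D : ℝ, D = 1 + Cs / v0 := ⟨_, rfl⟩
  have hD1 : 1 ≤ D := by
    rw [hD]; have : 0 ≤ Cs / v0 := div_nonneg hCs0 hv0pos.le
    linarith
  obtain ⟨C, hC⟩ : ∃ C : ℝ, C = 16000 * A * D + 256 * M ^ 2 := ⟨_, rfl⟩
  have hAD : 16000 * A ≤ 16000 * A * D := le_mul_of_one_le_right (by positivity) hD1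
  have hCpos : 0 < C := by rw [hC]; positivity
  refine ⟨C, hCpos, ?_⟩
  intro E hE ψ φ hψ hφ q hq hcen a b hab δ hδ hδq hK
  obtain ⟨K, hKdef⟩ : ∃ K : ℝ, K = pot m q + E := ⟨_, rfl⟩
  rw [← hKdef] at hK ⊢
  by_cases hbig : δ * K < C
  · -- trivial bound
    refine (measure_mono (fun P hP => hP.1)).trans ?_
    have h1 : 1 ≤ (C / (δ * K)) ^ (3 / 2 : ℝ) := by
      refine Real.one_le_rpow ?_ (by norm_num)
      rw [le_div_iff₀ (by positivity)]
      linarith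
    calc volume {P : Fin n → E3 | kin m (mom P) ≤ 1}
        = 1 * volume {P : Fin n → E3 | kin m (mom P) ≤ 1} := (one_mul _).symm
      _ ≤ _ := by
          gcongr
          rw [← ENNReal.ofReal_one]
          exact ENNReal.ofReal_le_ofReal h1
  push Not at hbig
  have hbig1 : 256 * M ^ 2 ≤ δ * K := by
    refine le_trans ?_ hbig
    rw [hC]
    have : 0 ≤ 16000 * A * D := by positivity
    linarith
  have hbig2 : 16000 * A ≤ δ * K := by
    refine le_trans ?_ hbig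
    rw [hC]
    have : 0 ≤ 256 * M ^ 2 := by positivity
    linarith
  -- the tight pair
  have hab0 : 0 < ‖q a - q b‖ := norm_pos_iff.mpr (sub_ne_zero.mpr (hq a b hab))
  have hr : ‖q a - q b‖ ≤ δ / 128 := by
    have h1 := Pool.Agent.Y421.NW.pot (q := q) hm hab (d := 4 * δ) (by positivity)
      (fun i j h => by have := hδq i j h; linarith)
    have h2 : pot m q = ∑ i, ∑ j, m i * m j / ‖q i - q j‖ / 2 := rfl
    rw [← h2, ← hMdef] at h1
    have h3 : 2 * M ^ 2 / (4 * δ) ≤ K / 512 := by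
      rw [div_le_div_iff₀ (by positivity) (by norm_num)]
      nlinarith
    have h4 : K / 2 ≤ m a * m b / ‖q a - q b‖ := by
      have : K ≤ pot m q := by linarith
      linarith
    rw [le_div_iff₀ hab0] at h4
    have h5 : m a * m b ≤ M ^ 2 := by
      have e1 : m a ≤ M := hMdef ▸ Finset.single_le_sum (fun i _ => (hm i).le) (Finset.mem_univ a)
      have e2 : m b ≤ M := hMdef ▸ Finset.single_le_sum (fun i _ => (hm i).le) (Finset.mem_univ b)
      have := mul_le_mul e1 e2 (hm b).le hM.le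
      nlinarith
    have h6 : K * ‖q a - q b‖ * 128 ≤ K * δ := by nlinarith
    have h7 : K * (‖q a - q b‖ * 128) ≤ K * δ := by linarith
    have := le_of_mul_le_mul_left h7 hK
    linarith
  have hXge : ∀ i j, P2 a b i j → δ / 2 ≤ ‖cm m a b q i - cm m a b q j‖ := by
    intro i j hP
    have e3 := near m hm a b q i
    have e4 := near m hm a b q j
    have e5 := hδq i j hP
    have e6 : ‖q i - q j‖ ≤ ‖q i - cm m a b q i‖ + ‖cm m a b q i - cm m a b q j‖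
        + ‖q j - cm m a b q j‖ := by
      have : q i - q j = (q i - cm m a b q i) + (cm m a b q i - cm m a b q j)
          + -(q j - cm m a b q j) := by abel
      calc ‖q i - q j‖ = ‖(q i - cm m a b q i) + (cm m a b q i - cm m a b q j)
          + -(q j - cm m a b q j)‖ := by rw [← this]
        _ ≤ ‖(q i - cm m a b q i) + (cm m a b q i - cm m a b q j)‖
          + ‖-(q j - cm m a b q j)‖ := norm_add_le _ _
        _ ≤ _ := by rw [norm_neg]; gcongr; exact norm_add_le _ _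
    linarith
  have hT : ∀ i j : Fin (n + 1), i ≠ b → j ≠ b → i ≠ j → P2 a b i j :=
    fun i j hi hj hij => ⟨hij, fun h => hj h.2, fun h => hi h.1⟩
  obtain ⟨w2, hw2⟩ : ∃ w2 : ℝ, w2 = 16000 * A / δ := ⟨_, rfl⟩
  have hw2pos : 0 < w2 := by rw [hw2]; positivity
  obtain ⟨t, ht⟩ : ∃ t : ℝ, t = w2 / K := ⟨_, rfl⟩
  have htpos : 0 < t := by rw [ht]; positivity
  have htle : t ≤ 1 := by
    rw [ht, hw2, div_div, div_le_one (by positivity)]
    exact hbig2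
  have hwt : w2 = K * t := by rw [ht]; field_simp
  -- inclusion
  have hincl : {P : Fin n → E3 | kin m (mom P) ≤ 1 ∧ NonW (Surf m E) φ
      (q, Real.sqrt (K / kin m (mom P)) • mom P)} ⊆
      (⋃ p : Fin (n + 1) × Fin (n + 1), {P | (p.1 ≠ b ∧ p.2 ≠ b ∧ p.1 ≠ p.2) ∧ ‖P‖ ≤ R ∧
        ‖RV m a b p.1 p.2 P‖ < Real.sqrt t}) ∪
      (⋃ p : (Fin (n + 1) × Fin (n + 1)) × (Fin (n + 1) × Fin (n + 1)),
        {P | ((p.1.1 ≠ b ∧ p.1.2 ≠ b ∧ p.2.1 ≠ b ∧ p.2.2 ≠ b) ∧ p.1.1 ≠ p.1.2 ∧ p.2.1 ≠ p.2.2 ∧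
            ¬(p.1.1 = p.2.1 ∧ p.1.2 = p.2.2) ∧ ¬(p.1.1 = p.2.2 ∧ p.1.2 = p.2.1)) ∧ ‖P‖ ≤ R ∧
          gr (cm m a b q p.1.1 - cm m a b q p.1.2) (RV m a b p.1.1 p.1.2 P) <
            t * ‖cm m a b q p.1.1 - cm m a b q p.1.2‖ ^ 2 ∧
          gr (cm m a b q p.2.1 - cm m a b q p.2.2) (RV m a b p.2.1 p.2.2 P) <
            t * ‖cm m a b q p.2.1 - cm m a b q p.2.2‖ ^ 2}) := by
    rintro P ⟨hP1, hP2⟩
    by_contra hcon
    simp only [mem_union, mem_iUnion, not_or, not_exists] at hcon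
    obtain ⟨hcon1, hcon2⟩ := hcon
    have hbig' : ∀ i j, i ≠ b → j ≠ b → i ≠ j → Real.sqrt t ≤ ‖RV m a b i j P‖ := by
      intro i j hi hj hij
      by_contra hlt
      push Not at hlt
      exact hcon1 (i, j) ⟨⟨hi, hj, hij⟩, hRb P hP1, hlt⟩
    have htr : ∀ i j k l, i ≠ b → j ≠ b → k ≠ b → l ≠ b → i ≠ j → k ≠ l → ¬(i = k ∧ j = l) →
        ¬(i = l ∧ j = k) → t * ‖cm m a b q i - cm m a b q j‖ ^ 2 ≤
          gr (cm m a b q i - cm m a b q j) (RV m a b i j P) ∨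
        t * ‖cm m a b q k - cm m a b q l‖ ^ 2 ≤
          gr (cm m a b q k - cm m a b q l) (RV m a b k l P) := by
      intro i j k l g1 g2 g3 g4 g5 g6 g7 g8
      by_contra hlt
      push Not at hlt
      exact hcon2 ((i, j), (k, l)) ⟨⟨⟨g1, g2, g3, g4⟩, g5, g6, g7, g8⟩, hRb P hP1, hlt.1, hlt.2⟩
    obtain ⟨c, hac⟩ := exists_P2 hn a b
    have hkin0 : 0 ≤ kin m (mom P) := Finset.sum_nonneg fun i _ => by
      have := hm i; positivity
    have hkin : 0 < kin m (mom P) := by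
      refine lt_of_le_of_ne hkin0 fun h0 => ?_
      have hz : ∀ i, mom P i = 0 := by
        intro i
        have h1 := (Finset.sum_eq_zero_iff_of_nonneg (fun i _ => by
          have := hm i; positivity)).mp h0.symm i (Finset.mem_univ i)
        have h2 : ‖mom P i‖ ^ 2 = 0 := by
          rcases div_eq_zero_iff.mp h1 with h | h
          · exact h
          · have := hm i; linarith
        exact norm_eq_zero.mp (pow_eq_zero_iff (by norm_num) |>.mp h2)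
      have hcb : c ≠ b := fun h => hac.2.1 ⟨rfl, h⟩
      have h3 := hbig' a c hab hcb hac.1
      have h4 : (fun k => (m k)⁻¹ • mom P k) = fun _ => (0 : E3) := by
        funext k; rw [hz k, smul_zero]
      have h5 : RV m a b a c P = 0 := by
        unfold RV
        rw [h4]
        unfold cm; simp
      rw [h5, norm_zero] at h3
      have h7 : 0 < Real.sqrt t := Real.sqrt_pos.mpr htpos
      linarith
    obtain ⟨s, hs⟩ : ∃ s : ℝ, s = Real.sqrt (K / kin m (mom P)) := ⟨_, rfl⟩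
    rw [← hs] at hP2
    have hs0 : 0 ≤ s := by rw [hs]; exact Real.sqrt_nonneg _
    have hs2 : s ^ 2 = K / kin m (mom P) := by
      rw [hs]; exact Real.sq_sqrt (div_nonneg hK.le hkin.le)
    have hs2K : K ≤ s ^ 2 := by
      rw [hs2, le_div_iff₀ hkin]
      nlinarith
    have hvel : vel m (q, s • mom P) = fun k => s • ((m k)⁻¹ • mom P k) := by
      funext k
      simp only [vel, Pi.smul_apply]
      rw [smul_comm]
    have hrv : ∀ i j, cm m a b (vel m (q, s • mom P)) i - cm m a b (vel m (q, s • mom P)) j =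
        s • RV m a b i j P := by
      intro i j
      rw [hvel, cm_smul, cm_smul, ← smul_sub]
      rfl
    have hsurf : (q, s • mom P) ∈ Surf m E := by
      refine ⟨hq, hcen, ?_, ?_⟩
      · have : ∑ i, (s • mom P) i = s • ∑ i, mom P i := by
          rw [Finset.smul_sum]; rfl
        rw [this, mom_sum, smul_zero]
      · have h1 : ∑ i, ‖(s • mom P) i‖ ^ 2 / (2 * m i) = s ^ 2 * kin m (mom P) := by
          unfold kin
          rw [Finset.mul_sum]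
          refine Finset.sum_congr rfl fun i _ => ?_
          rw [Pi.smul_apply, norm_smul, Real.norm_eq_abs, mul_pow, sq_abs]; ring
        show ∑ i, ‖(s • mom P) i‖ ^ 2 / (2 * m i) - pot m q = E
        rw [h1, hs2, div_mul_cancel₀ _ hkin.ne', hKdef]; ring
    have hgrs : ∀ (X V : E3), t * ‖X‖ ^ 2 ≤ gr X V → Real.sqrt w2 ^ 2 * ‖X‖ ^ 2 ≤ gr X (s • V) := by
      intro X V h1
      rw [Real.sq_sqrt hw2pos.le, gr_smul]
      have h3 : 0 ≤ t * ‖X‖ ^ 2 := by positivity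
      calc w2 * ‖X‖ ^ 2 = K * (t * ‖X‖ ^ 2) := by rw [hwt]; ring
        _ ≤ s ^ 2 * (t * ‖X‖ ^ 2) := by gcongr
        _ ≤ _ := by gcongr
    refine wander2 m M μ hμ hμm hMdef.ge a b hab E hE ψ hψ φ hφ
      (q, s • mom P) hsurf a c hac (Real.sqrt w2) (δ / 2) (Real.sqrt_pos.mpr hw2pos)
      (by positivity) ?_ hXge (by show ‖q a - q b‖ ≤ δ / 2 / 64; linarith) ?_ hP2
    · rw [Real.sq_sqrt hw2pos.le, hw2, ← hA]
      have : 16000 * A / δ * (δ / 2) = 8000 * A := by field_simp; ring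
      rw [this]
    · refine choice m a b hab q (vel m (q, s • mom P)) (Real.sqrt w2) ?_ ?_
      · intro i j hi hj hij
        rw [hrv, norm_smul, Real.norm_of_nonneg hs0]
        have h1 := hbig' i j hi hj hij
        have h2 : Real.sqrt w2 = Real.sqrt K * Real.sqrt t := by
          rw [hwt, Real.sqrt_mul hK.le]
        have h3 : Real.sqrt K ≤ s := by
          rw [← Real.sqrt_sq hs0]
          exact Real.sqrt_le_sqrt hs2K
        rw [h2]
        exact mul_le_mul h3 h1 (Real.sqrt_nonneg _) hs0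
      · intro i j k l g1 g2 g3 g4 g5 g6 g7 g8
        rw [hrv, hrv]
        exact (htr i j k l g1 g2 g3 g4 g5 g6 g7 g8).imp (hgrs _ _) (hgrs _ _)
  refine (measure_mono hincl).trans ?_
  refine (measure_union_le _ _).trans ?_
  have hb1 : volume (⋃ p : Fin (n + 1) × Fin (n + 1), {P : Fin n → E3 |
        (p.1 ≠ b ∧ p.2 ≠ b ∧ p.1 ≠ p.2) ∧ ‖P‖ ≤ R ∧
        ‖RV m a b p.1 p.2 P‖ < Real.sqrt t}) ≤
      ENNReal.ofReal (((n + 1 : ℕ) : ℝ) ^ 2 * C1 * t ^ (3 / 2 : ℝ)) := by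
    refine (measure_iUnion_fintype_le _ _).trans ((Finset.sum_le_sum (g := fun _ =>
      ENNReal.ofReal (C1 * t ^ (3 / 2 : ℝ))) fun p _ => ?_).trans ?_)
    · by_cases hP : p.1 ≠ b ∧ p.2 ≠ b ∧ p.1 ≠ p.2
      · refine (measure_mono fun P hP' => hP'.2).trans ((hC1 a b p.1 p.2 hab
          (hT _ _ hP.1 hP.2.1 hP.2.2) _ (Real.sqrt_nonneg _)).trans ?_)
        rw [sqrt_cube t htpos.le]
      · have : {P : Fin n → E3 | (p.1 ≠ b ∧ p.2 ≠ b ∧ p.1 ≠ p.2) ∧ ‖P‖ ≤ R ∧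
            ‖RV m a b p.1 p.2 P‖ < Real.sqrt t} = ∅ := by
          ext P
          exact ⟨fun h => absurd h.1 hP, fun h => h.elim⟩
        rw [this, measure_empty]
        exact zero_le
    · rw [Finset.sum_const, Finset.card_univ, Fintype.card_prod, Fintype.card_fin, nsmul_eq_mul,
        ← ENNReal.ofReal_natCast, ← ENNReal.ofReal_mul (by positivity)]
      refine ENNReal.ofReal_le_ofReal (le_of_eq ?_)
      push_cast
      ring
  have hb2 : volume (⋃ p : (Fin (n + 1) × Fin (n + 1)) × (Fin (n + 1) × Fin (n + 1)),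
        {P : Fin n → E3 | ((p.1.1 ≠ b ∧ p.1.2 ≠ b ∧ p.2.1 ≠ b ∧ p.2.2 ≠ b) ∧ p.1.1 ≠ p.1.2 ∧
            p.2.1 ≠ p.2.2 ∧
            ¬(p.1.1 = p.2.1 ∧ p.1.2 = p.2.2) ∧ ¬(p.1.1 = p.2.2 ∧ p.1.2 = p.2.1)) ∧ ‖P‖ ≤ R ∧
          gr (cm m a b q p.1.1 - cm m a b q p.1.2) (RV m a b p.1.1 p.1.2 P) <
            t * ‖cm m a b q p.1.1 - cm m a b q p.1.2‖ ^ 2 ∧
          gr (cm m a b q p.2.1 - cm m a b q p.2.2) (RV m a b p.2.1 p.2.2 P) <
            t * ‖cm m a b q p.2.1 - cm m a b q p.2.2‖ ^ 2}) ≤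
      ENNReal.ofReal (((n + 1 : ℕ) : ℝ) ^ 4 * C2 * t ^ (3 / 2 : ℝ)) := by
    have ht2 : t ^ 2 ≤ t ^ (3 / 2 : ℝ) := by
      rw [← Real.rpow_natCast]
      exact Real.rpow_le_rpow_of_exponent_ge htpos htle (by norm_num)
    refine (measure_iUnion_fintype_le _ _).trans ((Finset.sum_le_sum (g := fun _ =>
      ENNReal.ofReal (C2 * t ^ (3 / 2 : ℝ))) fun p _ => ?_).trans ?_)
    · by_cases hP : (p.1.1 ≠ b ∧ p.1.2 ≠ b ∧ p.2.1 ≠ b ∧ p.2.2 ≠ b) ∧ p.1.1 ≠ p.1.2 ∧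
            p.2.1 ≠ p.2.2 ∧
            ¬(p.1.1 = p.2.1 ∧ p.1.2 = p.2.2) ∧ ¬(p.1.1 = p.2.2 ∧ p.1.2 = p.2.1)
      · have hx1 := hXge p.1.1 p.1.2 (hT _ _ hP.1.1 hP.1.2.1 hP.2.1)
        have hx2 := hXge p.2.1 p.2.2 (hT _ _ hP.1.2.2.1 hP.1.2.2.2 hP.2.2.1)
        refine (measure_mono fun P hP' => hP'.2).trans ((hC2 a b p.1.1 p.1.2 p.2.1 p.2.2 hab
          hP.1.1 hP.1.2.1 hP.1.2.2.1 hP.1.2.2.2 hP.2.1 hP.2.2.1 hP.2.2.2.1 hP.2.2.2.2 _ _
          (norm_pos_iff.mp (by linarith)) (norm_pos_iff.mp (by linarith)) t htpos.le).trans ?_)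
        exact ENNReal.ofReal_le_ofReal (mul_le_mul_of_nonneg_left ht2 hC20)
      · refine (measure_mono (t := ∅) fun P hP' => absurd hP'.1 hP).trans ?_
        rw [measure_empty]
        exact zero_le
    · rw [Finset.sum_const, Finset.card_univ, Fintype.card_prod, Fintype.card_prod,
        Fintype.card_fin, nsmul_eq_mul,
        ← ENNReal.ofReal_natCast, ← ENNReal.ofReal_mul (by positivity)]
      refine ENNReal.ofReal_le_ofReal (le_of_eq ?_)
      push_cast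
      ring
  refine (add_le_add hb1 hb2).trans ?_
  have ht32 : 0 ≤ t ^ (3 / 2 : ℝ) := Real.rpow_nonneg htpos.le _
  rw [← ENNReal.ofReal_add (by positivity) (by positivity), ← add_mul, ← hCs]
  calc ENNReal.ofReal (Cs * t ^ (3 / 2 : ℝ))
      ≤ ENNReal.ofReal ((C / (δ * K)) ^ (3 / 2 : ℝ) * v0) := by
        refine ENNReal.ofReal_le_ofReal ?_
        have h1 : D * t ≤ C / (δ * K) := by
          rw [ht, hw2, le_div_iff₀ (by positivity)]
          have : D * (16000 * A / δ / K) * (δ * K) = 16000 * A * D := by field_simp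
          rw [this, hC]
          have : 0 ≤ 256 * M ^ 2 := by positivity
          linarith
        have h2 : (D * t) ^ (3 / 2 : ℝ) ≤ (C / (δ * K)) ^ (3 / 2 : ℝ) :=
          Real.rpow_le_rpow (by positivity) h1 (by norm_num)
        rw [Real.mul_rpow (by linarith) htpos.le] at h2
        have h3 : D ≤ D ^ (3 / 2 : ℝ) := by
          calc D = D ^ (1 : ℝ) := (Real.rpow_one D).symm
            _ ≤ _ := Real.rpow_le_rpow_of_exponent_le hD1 (by norm_num)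
        have h4 : Cs ≤ D * v0 := by
          rw [hD, add_mul, div_mul_cancel₀ _ hv0pos.ne']
          linarith
        calc Cs * t ^ (3 / 2 : ℝ) ≤ (D * v0) * t ^ (3 / 2 : ℝ) := by gcongr
          _ = (D * t ^ (3 / 2 : ℝ)) * v0 := by ring
          _ ≤ (D ^ (3 / 2 : ℝ) * t ^ (3 / 2 : ℝ)) * v0 := by gcongr
          _ ≤ _ := by gcongr
    _ = ENNReal.ofReal ((C / (δ * K)) ^ (3 / 2 : ℝ)) * ENNReal.ofReal v0 :=
        ENNReal.ofReal_mul (by positivity)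
    _ ≤ _ := by gcongr

end Pool.Agent.Q130.NX
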