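import Pool.Agent.Q130.NX.Fin3

set_option autoImplicit false

/-! Project NX: three bodies, pointwise bound at nonwandering points. -/

namespace Pool.Agent.Q130.NX

open MeasureTheory Set Pool.Agent.Y516.NW

theorem fin3 (a b c : Fin 3) (hab : a ≠ b) (hca : c ≠ a) (hcb : c ≠ b) (i : Fin 3) : i = a ∨ i = b ∨ i = c := by
  have h1 := a.isLt
  have h2 := b.isLt
  have h3 := c.isLt
  have h4 := i.isLt
  simp only [Fin.ext_iff, ne_eq] at *
  omega

/-- kinetic energy bounds the relative velocity of a body and two others -/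
theorem relvel (m : Fin 3 → ℝ) (μ : ℝ) (hμ : 0 < μ) (hm : ∀ i, μ ≤ m i) (a b c : Fin 3)
    (v : Cfg 3) :
    ‖v c - (m a + m b)⁻¹ • (m a • v a + m b • v b)‖ ^ 2 ≤ 8 / μ * ∑ i, m i * ‖v i‖ ^ 2 / 2 := by
  have hma : 0 < m a := hμ.trans_le (hm a)
  have hmb : 0 < m b := hμ.trans_le (hm b)
  obtain ⟨T, hT⟩ : ∃ T : ℝ, T = ∑ i, m i * ‖v i‖ ^ 2 / 2 := ⟨_, rfl⟩
  have hTi : ∀ i, ‖v i‖ ^ 2 ≤ 2 / μ * T := by
    intro i
    have h1 : m i * ‖v i‖ ^ 2 / 2 ≤ T := by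
      rw [hT]
      exact Finset.single_le_sum (f := fun i => m i * ‖v i‖ ^ 2 / 2) (fun j _ => by
        have := hμ.trans_le (hm j); positivity) (Finset.mem_univ i)
    have h2 : μ * ‖v i‖ ^ 2 ≤ m i * ‖v i‖ ^ 2 := mul_le_mul_of_nonneg_right (hm i) (sq_nonneg _)
    rw [div_mul_eq_mul_div, le_div_iff₀ hμ]
    linarith
  have hT0 : 0 ≤ 2 / μ * T := (sq_nonneg _).trans (hTi a)
  obtain ⟨s, hs⟩ : ∃ s : ℝ, s = Real.sqrt (2 / μ * T) := ⟨_, rfl⟩
  have hs0 : 0 ≤ s := by rw [hs]; exact Real.sqrt_nonneg _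
  have hs2 : s ^ 2 = 2 / μ * T := by rw [hs]; exact Real.sq_sqrt hT0
  have hvi : ∀ i, ‖v i‖ ≤ s := fun i => by
    rw [hs]; exact Real.le_sqrt_of_sq_le (hTi i)
  have hcm : ‖(m a + m b)⁻¹ • (m a • v a + m b • v b)‖ ≤ s := by
    rw [norm_smul, Real.norm_of_nonneg (by positivity), inv_mul_le_iff₀ (by positivity)]
    refine (norm_add_le _ _).trans ?_
    rw [norm_smul, norm_smul, Real.norm_of_nonneg hma.le, Real.norm_of_nonneg hmb.le, add_mul]
    exact add_le_add (mul_le_mul_of_nonneg_left (hvi a) hma.le)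
      (mul_le_mul_of_nonneg_left (hvi b) hmb.le)
  have h1 : ‖v c - (m a + m b)⁻¹ • (m a • v a + m b • v b)‖ ≤ 2 * s := by
    refine (norm_sub_le _ _).trans ?_
    have := hvi c
    linarith
  calc ‖v c - (m a + m b)⁻¹ • (m a • v a + m b • v b)‖ ^ 2 ≤ (2 * s) ^ 2 := by gcongr
    _ = 4 * s ^ 2 := by ring
    _ = 8 / μ * T := by rw [hs2]; ring
    _ = _ := by rw [hT]

theorem three (m : Fin 3 → ℝ) (hm : ∀ i, 0 < m i) :
    ∃ C : ℝ, 0 < C ∧ ∀ E : ℝ, E ≤ 0 →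
      ∀ (ψ : Cfg 3 × Cfg 3 → ℝ) (φ : ℝ → Cfg 3 × Cfg 3 → Cfg 3 × Cfg 3),
      ContDiffOn ℝ 1 ψ (Free 3) → IsFl m E ψ φ →
      ∀ x ∈ Surf m E, NonW (Surf m E) φ x →
      ∀ a b c : Fin 3, a ≠ b → c ≠ a → c ≠ b →
        ‖vel m x c - (m a + m b)⁻¹ • (m a • vel m x a + m b • vel m x b)‖ ^ 2 *
          min ‖x.1 c - x.1 a‖ ‖x.1 c - x.1 b‖ ≤ C := by
  obtain ⟨μ, hμ, hμm⟩ : ∃ μ : ℝ, 0 < μ ∧ ∀ i, μ ≤ m i := by
    obtain ⟨μi, _, hμi⟩ := Finset.exists_min_image Finset.univ m ⟨0, Finset.mem_univ _⟩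
    exact ⟨m μi, hm μi, fun i => hμi i (Finset.mem_univ _)⟩
  obtain ⟨M, hMdef⟩ : ∃ M : ℝ, M = ∑ i, m i := ⟨_, rfl⟩
  have hM : 0 < M := by
    rw [hMdef]; exact Finset.sum_pos (fun i _ => hm i) ⟨0, Finset.mem_univ _⟩
  obtain ⟨A, hA⟩ : ∃ A : ℝ, A = M + M ^ 2 / μ := ⟨_, rfl⟩
  have hApos : 0 < A := by
    rw [hA]; have : 0 ≤ M ^ 2 / μ := div_nonneg (sq_nonneg _) hμ.le
    linarith
  obtain ⟨C, hC⟩ : ∃ C : ℝ, C = 16000 * A + 10000 * M ^ 2 / μ := ⟨_, rfl⟩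
  have hCpos : 0 < C := by rw [hC]; positivity
  refine ⟨C, hCpos, ?_⟩
  intro E hE ψ φ hψ hφ x hx hN a b c hab hca hcb
  obtain ⟨ρ, hρ⟩ : ∃ ρ : ℝ, ρ = min ‖x.1 c - x.1 a‖ ‖x.1 c - x.1 b‖ := ⟨_, rfl⟩
  have hca0 : 0 < ‖x.1 c - x.1 a‖ := norm_pos_iff.mpr (sub_ne_zero.mpr (hx.1 c a hca))
  have hcb0 : 0 < ‖x.1 c - x.1 b‖ := norm_pos_iff.mpr (sub_ne_zero.mpr (hx.1 c b hcb))
  have hab0 : 0 < ‖x.1 a - x.1 b‖ := norm_pos_iff.mpr (sub_ne_zero.mpr (hx.1 a b hab))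
  have hρ0 : 0 < ρ := by rw [hρ]; exact lt_min hca0 hcb0
  have hρa : ρ ≤ ‖x.1 c - x.1 a‖ := by rw [hρ]; exact min_le_left _ _
  have hρb : ρ ≤ ‖x.1 c - x.1 b‖ := by rw [hρ]; exact min_le_right _ _
  rw [← hρ]
  obtain ⟨W, hW⟩ : ∃ W : E3, W = vel m x c - (m a + m b)⁻¹ • (m a • vel m x a + m b • vel m x b) :=
    ⟨_, rfl⟩
  rw [← hW]
  by_contra hcon
  push Not at hcon
  -- pairs
  have hpair : ∀ i j : Fin 3, P2 a b i j → ρ ≤ ‖x.1 i - x.1 j‖ := by
    intro i j hP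
    have hi := fin3 a b c hab hca hcb i
    have hj := fin3 a b c hab hca hcb j
    obtain ⟨h1, h2, h3⟩ := hP
    rcases hi with rfl | rfl | rfl <;> rcases hj with rfl | rfl | rfl
    · exact absurd rfl h1
    · exact absurd ⟨rfl, rfl⟩ h2
    · rw [norm_sub_rev]; exact hρa
    · exact absurd ⟨rfl, rfl⟩ h3
    · exact absurd rfl h1
    · rw [norm_sub_rev]; exact hρb
    · exact hρa
    · exact hρb
    · exact absurd rfl h1
  by_cases hr : ‖x.1 a - x.1 b‖ ≤ ρ / 128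
  · -- tight pair
    obtain ⟨w2, hw2⟩ : ∃ w2 : ℝ, w2 = 16000 * A / ρ := ⟨_, rfl⟩
    have hw2pos : 0 < w2 := by rw [hw2]; positivity
    have hWw : Real.sqrt w2 ≤ ‖W‖ := by
      refine Real.sqrt_le_iff.mpr ⟨norm_nonneg _, ?_⟩
      rw [hw2, div_le_iff₀ hρ0]
      refine le_trans ?_ hcon.le
      rw [hC]
      have : 0 ≤ 10000 * M ^ 2 / μ := by positivity
      linarith
    have hXge : ∀ i j, P2 a b i j → ρ / 2 ≤ ‖cm m a b x.1 i - cm m a b x.1 j‖ := by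
      intro i j hP
      have e3 := near m hm a b x.1 i
      have e4 := near m hm a b x.1 j
      have e5 := hpair i j hP
      have e6 : ‖x.1 i - x.1 j‖ ≤ ‖x.1 i - cm m a b x.1 i‖ + ‖cm m a b x.1 i - cm m a b x.1 j‖
          + ‖x.1 j - cm m a b x.1 j‖ := by
        have : x.1 i - x.1 j = (x.1 i - cm m a b x.1 i) + (cm m a b x.1 i - cm m a b x.1 j)
            + -(x.1 j - cm m a b x.1 j) := by abel
        calc ‖x.1 i - x.1 j‖ = ‖(x.1 i - cm m a b x.1 i) + (cm m a b x.1 i - cm m a b x.1 j)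
            + -(x.1 j - cm m a b x.1 j)‖ := by rw [← this]
          _ ≤ ‖(x.1 i - cm m a b x.1 i) + (cm m a b x.1 i - cm m a b x.1 j)‖
            + ‖-(x.1 j - cm m a b x.1 j)‖ := norm_add_le _ _
          _ ≤ _ := by rw [norm_neg]; gcongr; exact norm_add_le _ _
      linarith
    have hcmc : cm m a b (vel m x) c = vel m x c := by
      unfold cm; rw [if_neg (by tauto)]
    have hcma : cm m a b (vel m x) a = (m a + m b)⁻¹ • (m a • vel m x a + m b • vel m x b) := by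
      unfold cm; rw [if_pos (Or.inl rfl)]
    have hP₀ : P2 a b a c := ⟨hca.symm, fun h => hcb h.2, fun h => hab h.1⟩
    refine wander2 m M μ hμ hμm hMdef.ge a b hab E hE ψ hψ φ hφ x hx a c hP₀ (Real.sqrt w2) (ρ / 2)
      (Real.sqrt_pos.mpr hw2pos) (by positivity) ?_ hXge (by linarith) ?_ hN
    · rw [Real.sq_sqrt hw2pos.le, hw2, ← hA]
      have : 16000 * A / ρ * (ρ / 2) = 8000 * A := by field_simp; ring
      rw [this]
    · refine choice m a b hab x.1 (vel m x) (Real.sqrt w2) ?_ ?_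
      · intro i j hi hj hij
        have hi' := fin3 a b c hab hca hcb i
        have hj' := fin3 a b c hab hca hcb j
        rcases hi' with rfl | rfl | rfl
        · rcases hj' with rfl | rfl | rfl
          · exact absurd rfl hij
          · exact absurd rfl hj
          · rw [hcmc, hcma, norm_sub_rev, ← hW]; exact hWw
        · exact absurd rfl hi
        · rcases hj' with rfl | rfl | rfl
          · rw [hcmc, hcma, ← hW]; exact hWw
          · exact absurd rfl hj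
          · exact absurd rfl hij
      · intro i j k l hi hj hk hl hij hkl g1 g2
        exfalso
        have a1 := a.isLt
        have a2 := b.isLt
        have a3 := i.isLt
        have a4 := j.isLt
        have a5 := k.isLt
        have a6 := l.isLt
        simp only [Fin.ext_iff, ne_eq] at *
        omega
  · -- all distances are large
    push Not at hr
    have h1 := Pool.Agent.Y421.NW.pot (q := x.1) hm hab (d := 4 * ρ) (by positivity)
      (fun i j h => by have := hpair i j h; linarith)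
    rw [← hMdef] at h1
    have h5 : m a * m b ≤ M ^ 2 := by
      have e1 : m a ≤ M := hMdef ▸ Finset.single_le_sum (fun i _ => (hm i).le) (Finset.mem_univ a)
      have e2 : m b ≤ M := hMdef ▸ Finset.single_le_sum (fun i _ => (hm i).le) (Finset.mem_univ b)
      have := mul_le_mul e1 e2 (hm b).le hM.le
      nlinarith
    have h6 : m a * m b / ‖x.1 a - x.1 b‖ ≤ 128 * M ^ 2 / ρ := by
      rw [div_le_div_iff₀ hab0 hρ0]
      have e1 : m a * m b * ρ ≤ M ^ 2 * ρ := mul_le_mul_of_nonneg_right h5 hρ0.le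
      have e2 : M ^ 2 * (ρ / 128) ≤ M ^ 2 * ‖x.1 a - x.1 b‖ := by gcongr
      linarith
    have h7 : 2 * M ^ 2 / (4 * ρ) = M ^ 2 / ρ / 2 := by field_simp; ring
    have h8 : 128 * M ^ 2 / ρ = 128 * (M ^ 2 / ρ) := by ring
    have h9 := hx.2.2.2
    have h10 : ∑ i, ‖x.2 i‖ ^ 2 / (2 * m i) = ∑ i, m i * ‖vel m x i‖ ^ 2 / 2 := by
      refine Finset.sum_congr rfl fun i _ => ?_
      simp only [vel, norm_smul, norm_inv, Real.norm_of_nonneg (hm i).le]
      have := (hm i).ne'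
      field_simp
    have h11 : ∑ i, m i * ‖vel m x i‖ ^ 2 / 2 ≤ 129 * (M ^ 2 / ρ) := by
      rw [← h10]
      rw [h7, ] at h1
      have : 0 ≤ M ^ 2 / ρ := by positivity
      linarith
    have h12 := relvel m μ hμ hμm a b c (vel m x)
    rw [← hW] at h12
    have h13 : ‖W‖ ^ 2 ≤ 8 / μ * (129 * (M ^ 2 / ρ)) :=
      h12.trans (mul_le_mul_of_nonneg_left h11 (by positivity))
    have h14 : ‖W‖ ^ 2 * ρ ≤ 8 / μ * (129 * (M ^ 2 / ρ)) * ρ := mul_le_mul_of_nonneg_right h13 hρ0.le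
    have h15 : 8 / μ * (129 * (M ^ 2 / ρ)) * ρ = 1032 * M ^ 2 / μ := by field_simp; ring
    rw [h15] at h14
    have h16 : 1032 * M ^ 2 / μ ≤ 10000 * M ^ 2 / μ := by gcongr; norm_num
    have h17 : 0 ≤ 16000 * A := by positivity
    rw [hC] at hcon
    linarith

end Pool.Agent.Q130.NX
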